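import Mathlib

/-!
# Spanning `k`-strong oriented subgraphs: definitions

A digraph on `V` is a relation `D : V → V → Prop`, `D u v` meaning that the arc `uv` is present.
-/

namespace Pool.Agent.JT78

universe u

/-- `D` has no loops. -/
def Loopless {V : Type u} (D : V → V → Prop) : Prop := ∀ v, ¬ D v v

/-- `D` is `k`-strong: it has at least `k + 1` vertices and, for every set `X` of at most `k - 1`
vertices, `D - X` is strongly connected (any two vertices outside `X` are joined by a directed
walk in both directions, avoiding `X`). -/
def KStrong {V : Type u} [Fintype V] (k : ℕ) (D : V → V → Prop) : Prop :=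
  k + 1 ≤ Fintype.card V ∧ ∀ X : Finset V, X.card < k → ∀ u v, u ∉ X → v ∉ X →
    Relation.ReflTransGen (fun a b => D a b ∧ a ∉ X ∧ b ∉ X) u v

/-- `H` is a spanning subdigraph of `D` which is an oriented graph (no directed `2`-cycle). -/
def SpanningOriented {V : Type u} (D H : V → V → Prop) : Prop :=
  (∀ u v, H u v → D u v) ∧ ∀ u v, H u v → ¬ H v u

/-- every nonempty subset `X` of `U` contains a vertex with at most `s` in-neighbours in `X` and a
vertex with at most `s` out-neighbours in `X` (this holds for instance if `D[U]` has no arcs, if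
`D[U]` is acyclic, or if the underlying graph of `D[U]` is `s`-degenerate) -/
def Sparse {V : Type u} (s : ℕ) (D : V → V → Prop) (U : Set V) : Prop :=
  ∀ X : Set V, X ⊆ U → X.Nonempty →
    (∃ v ∈ X, ({u | u ∈ X ∧ D u v} : Set V).ncard ≤ s) ∧
    ∃ v ∈ X, ({u | u ∈ X ∧ D v u} : Set V).ncard ≤ s

end Pool.Agent.JT78
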