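import Pool.Agent.JT78.Flow

/-!
# The core construction

If `D` is sufficiently strong and has small sets which dominate it up to exceptional vertices with
a rank structure, then `D` has a spanning `k`-strong oriented subgraph.
-/

namespace Pool.Agent.JT78

open Finset Relation

open scoped Classical

universe u

/-- the reverse digraph -/
def rev {V : Type u} (D : V → V → Prop) : V → V → Prop := fun a b => D b a

section

variable {V : Type u} [Fintype V]

theorem KStrong.mono {f g : ℕ} {D : V → V → Prop} (h : KStrong f D)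
    (hg : g ≤ f) : KStrong g D :=
  ⟨by have := h.1; omega, fun X hX => h.2 X (lt_of_lt_of_le hX hg)⟩

theorem rtg_swap {α : Type*} {r : α → α → Prop} {x y : α} (hxy : ReflTransGen r x y) :
    ReflTransGen (fun a b => r b a) y x := by
  induction hxy with
  | refl => exact .refl
  | tail _ h2 ih => exact ih.head h2

theorem kstrong_rev {f : ℕ} {D : V → V → Prop} (h : KStrong f D) : KStrong f (rev D) := by
  refine ⟨h.1, fun X hX u v hu hv => ?_⟩
  have h1 := h.2 X hX v u hv hu
  have h2 := rtg_swap h1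
  refine rtg_mono ?_ h2
  rintro a b ⟨h3, h4, h5⟩
  exact ⟨h3, h5, h4⟩

/-- domination with rank structure -/
def DP (D : V → V → Prop) (k t : ℕ) (F : Finset V) : Prop :=
  ∃ T : Finset V, Disjoint T F ∧ T.card ≤ t ∧ ∀ X : Finset V, X.Nonempty → Disjoint X F →
    Disjoint X T → (∀ v ∈ X, (inN D v ∩ T).card < k) →
    ∃ v ∈ X, (inN D v).card ≤ 2 * (inN D v \ X).card

/-- domination with rank structure, version with a constant -/
def DPC (D : V → V → Prop) (k t C : ℕ) (F : Finset V) : Prop :=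
  ∃ T : Finset V, Disjoint T F ∧ T.card ≤ t ∧ ∀ X : Finset V, X.Nonempty → Disjoint X F →
    Disjoint X T → (∀ v ∈ X, (inN D v ∩ T).card < k) →
    ∃ v ∈ X, C ≤ (inN D v \ X).card

theorem DP.dpc {D : V → V → Prop} {k t C : ℕ} {F : Finset V} (h : DP D k t F)
    (hd : ∀ v, 2 * C ≤ (inN D v).card) : DPC D k t C F := by
  obtain ⟨T, h1, h2, h3⟩ := h
  refine ⟨T, h1, h2, fun X hX hXF hXT hXk => ?_⟩
  obtain ⟨v, hv, h4⟩ := h3 X hX hXF hXT hXk
  refine ⟨v, hv, ?_⟩
  have := hd v
  omega

theorem exists_rank (D : V → V → Prop) (C : ℕ) : ∀ (n : ℕ) (E : Finset V), E.card = n →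
    (∀ X ⊆ E, X.Nonempty → ∃ v ∈ X, C ≤ (inN D v \ X).card) →
    ∃ r : V → ℕ, (∀ w, w ∉ E → r w = n + 1) ∧ (∀ v ∈ E, r v ≤ n) ∧
      ∀ v ∈ E, C ≤ ((inN D v).filter (fun w => r v < r w)).card := by
  intro n
  induction n with
  | zero =>
    intro E hE _
    rw [card_eq_zero] at hE
    subst hE
    exact ⟨fun _ => 1, fun _ _ => rfl, fun v hv => absurd hv (notMem_empty v),
      fun v hv => absurd hv (notMem_empty v)⟩
  | succ n ih =>
    intro E hE h
    have hne : E.Nonempty := by
      rw [← card_pos]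
      omega
    obtain ⟨v1, hv1, hc1⟩ := h E Subset.rfl hne
    obtain ⟨r', h1, h2, h3⟩ := ih (E.erase v1) (by rw [card_erase_of_mem hv1]; omega)
      (fun X hX => h X (hX.trans (erase_subset _ _)))
    obtain ⟨r, rE', rv1, rE⟩ : ∃ r : V → ℕ, (∀ w ∈ E.erase v1, r w = r' w) ∧ r v1 = n + 1 ∧
        ∀ w, w ∉ E → r w = n + 2 := by
      refine ⟨fun w => if w ∈ E.erase v1 then r' w else if w = v1 then n + 1 else n + 2,
        fun w hw => if_pos hw, ?_, ?_⟩
      · simp
      · intro w hw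
        simp only
        rw [if_neg (fun h => hw (mem_of_mem_erase h)), if_neg]
        rintro rfl
        exact hw hv1
    refine ⟨r, rE, ?_, ?_⟩
    · intro v hv
      by_cases hvv : v = v1
      · rw [hvv, rv1]
      · rw [rE' v (mem_erase.2 ⟨hvv, hv⟩)]
        exact (h2 v (mem_erase.2 ⟨hvv, hv⟩)).trans (Nat.le_succ _)
    · intro v hv
      by_cases hvv : v = v1
      · rw [hvv]
        refine hc1.trans (card_le_card ?_)
        intro w hw
        rw [mem_sdiff] at hw
        rw [mem_filter]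
        refine ⟨hw.1, ?_⟩
        rw [rv1, rE w hw.2]
        omega
      · have hv' : v ∈ E.erase v1 := mem_erase.2 ⟨hvv, hv⟩
        refine (h3 v hv').trans (card_le_card ?_)
        intro w hw
        rw [mem_filter] at hw ⊢
        refine ⟨hw.1, ?_⟩
        rw [rE' v hv']
        have h4 := h2 v hv'
        by_cases hw' : w ∈ E.erase v1
        · rw [rE' w hw']
          exact hw.2
        · by_cases hww : w = v1
          · rw [hww, rv1]
            omega
          · rw [rE w (fun h => hw' (mem_erase.2 ⟨hww, h⟩))]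
            omega

omit [Fintype V] in
theorem exists_picks {k : ℕ} {A B : Finset V} (hA : k ≤ A.card) (hB : 2 * k ≤ B.card) :
    ∃ I O : Finset V, I ⊆ A ∧ O ⊆ B ∧ I.card = k ∧ O.card = k ∧ Disjoint I O := by
  obtain ⟨I, hI, hIc⟩ := exists_subset_card_eq hA
  have h1 : k ≤ (B \ I).card := by
    have := le_card_sdiff I B
    omega
  obtain ⟨O, hO, hOc⟩ := exists_subset_card_eq h1
  refine ⟨I, O, hI, hO.trans sdiff_subset, hIc, hOc, ?_⟩
  rw [disjoint_left]
  intro x hx hx'
  exact (mem_sdiff.1 (hO hx')).2 hx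

theorem phi_mono (k : ℕ) {m n : ℕ} (h : m ≤ n) : phi k m ≤ phi k n := by
  induction h with
  | refl => exact le_rfl
  | step _ ih =>
    rw [phi]
    omega

/-- picks at one vertex -/
theorem local_picks {k C s N : ℕ} {D H : V → V → Prop} {T Sp Tin : Finset V} (E : Finset V)
    (hTS : T ⊆ Sp) (hSp : Sp.card ≤ s) (hN : ∀ v, (nbr H v).card ≤ N)
    (hC : s + N + 2 * k ≤ C) {r : V → ℕ}
    (hr : ∀ v ∈ E, C ≤ ((inN D v).filter (fun w => r v < r w)).card)
    (hdeg : ∀ v, C ≤ (inN D v).card)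
    (hE : ∀ v, v ∉ Sp → (inN D v ∩ Tin).card < k → v ∈ E)
    (v : V) (hv : v ∉ T) (hTI : ¬ (v ∉ Sp ∧ k ≤ (inN D v ∩ Tin).card)) :
    2 * k ≤ ((inN D v).filter (fun w =>
      (if v ∈ T then 0 else if v ∈ Sp then 1 else 2 + r v) <
      (if w ∈ T then 0 else if w ∈ Sp then 1 else 2 + r w) ∧ w ∉ T ∧ w ∉ nbr H v)).card := by
  have h0 := hN v
  have hsdiff : ∀ A : Finset V, A.card ≤ (A \ (Sp ∪ nbr H v)).card + (s + N) := by
    intro A
    have h1 := le_card_sdiff (Sp ∪ nbr H v) A
    have h2 := card_union_le Sp (nbr H v)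
    omega
  by_cases hvS : v ∈ Sp
  · have h1 : inN D v \ (Sp ∪ nbr H v) ⊆ ((inN D v).filter (fun w =>
      (if v ∈ T then 0 else if v ∈ Sp then 1 else 2 + r v) <
      (if w ∈ T then 0 else if w ∈ Sp then 1 else 2 + r w) ∧ w ∉ T ∧ w ∉ nbr H v)) := by
      intro w hw
      rw [mem_sdiff, mem_union] at hw
      push Not at hw
      rw [mem_filter]
      have hwT : w ∉ T := fun h => hw.2.1 (hTS h)
      refine ⟨hw.1, ?_, hwT, hw.2.2⟩
      rw [if_neg hv, if_pos hvS, if_neg hwT, if_neg hw.2.1]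
      omega
    have h2 := card_le_card h1
    have h3 := hsdiff (inN D v)
    have h4 := hdeg v
    omega
  · have hvE : v ∈ E := hE v hvS (by
      by_contra h
      exact hTI ⟨hvS, not_lt.1 h⟩)
    have h1 : ((inN D v).filter (fun w => r v < r w)) \ (Sp ∪ nbr H v) ⊆
      ((inN D v).filter (fun w =>
      (if v ∈ T then 0 else if v ∈ Sp then 1 else 2 + r v) <
      (if w ∈ T then 0 else if w ∈ Sp then 1 else 2 + r w) ∧ w ∉ T ∧ w ∉ nbr H v)) := by
      intro w hw
      rw [mem_sdiff, mem_union, mem_filter] at hw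
      push Not at hw
      rw [mem_filter]
      have hwT : w ∉ T := fun h => hw.2.1 (hTS h)
      refine ⟨hw.1.1, ?_, hwT, hw.2.2⟩
      rw [if_neg hv, if_neg hvS, if_neg hwT, if_neg hw.2.1]
      have := hw.1.2
      omega
    have h2 := card_le_card h1
    have h3 := hsdiff ((inN D v).filter (fun w => r v < r w))
    have h4 := hr v hvE
    omega

end

theorem core (k t : ℕ) : ∃ C f : ℕ, ∀ (V : Type u) [Fintype V] (D : V → V → Prop),
    Loopless D → KStrong f D → DPC D k t C ∅ → (∀ F, F.card ≤ t → DPC (rev D) k t C F) →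
    ∃ H, SpanningOriented D H ∧ KStrong k H := by
  set N := t * t * (2 * k + 3) with hNdef
  set s := 2 * t * (1 + N + 2 * k) with hsdef
  set C := s + N + 2 * k with hCdef
  refine ⟨C, phi k (t * t) + 2 * C + 2 * t + N + 3 * k, ?_⟩
  intro V _ D hl hK hD1 hD2
  set f := phi k (t * t) + 2 * C + 2 * t + N + 3 * k with hf
  obtain ⟨Tin, -, hTin, hXin⟩ := hD1
  obtain ⟨Tout, hdis, hTout, hXout⟩ := hD2 Tin hTin
  have hRob := rob_of_kstrong hK
  have hRob' := rob_of_kstrong (kstrong_rev hK)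
  have hdeg : ∀ v, f ≤ (inN D v).card := le_inN_of_rob hl hRob hK.1
  have hdeg' : ∀ v, f ≤ (inN (rev D) v).card := le_inN_of_rob (fun v => hl v) hRob' hK.1
  set T : Finset V := Tin ∪ Tout with hT
  have hTc : T.card ≤ 2 * t := (card_union_le _ _).trans (by omega)
  -- linkage
  obtain ⟨H, hHD, hHa, hHd, hHr⟩ := exists_links k (Tout ×ˢ Tin).toList D (by
    intro q hq
    rw [mem_toList, mem_product] at hq
    intro h
    rw [h] at hq
    exact (disjoint_left.1 hdis) hq.1 hq.2) (by
    refine hRob.mono ?_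
    have e : (Tout ×ˢ Tin).toList.length ≤ t * t := by
      rw [length_toList, card_product]
      exact Nat.mul_le_mul hTout hTin
    have := phi_mono k e
    omega)
  have hN : ∀ v, (nbr H v).card ≤ N := by
    intro v
    refine (hHd v).trans (Nat.mul_le_mul ?_ le_rfl)
    rw [length_toList, card_product]
    exact Nat.mul_le_mul hTout hTin
  -- picks of the vertices of T
  have hst1 : ∀ v, ∃ I O : Finset V, I ⊆ inN D v \ (T ∪ nbr H v) ∧
      O ⊆ inN (rev D) v \ (T ∪ nbr H v) ∧ I.card = k ∧ O.card = k ∧ Disjoint I O := by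
    intro v
    have h0 := card_union_le T (nbr H v)
    have h1 := hN v
    have h2 := hdeg v
    have h3 := hdeg' v
    have h4 := le_card_sdiff (T ∪ nbr H v) (inN D v)
    have h5 := le_card_sdiff (T ∪ nbr H v) (inN (rev D) v)
    exact exists_picks (by omega) (by omega)
  choose I1 O1 hI1 hO1 hI1c hO1c hIO1 using hst1
  set Sp : Finset V := T ∪ T.biUnion (fun v => nbr H v ∪ (I1 v ∪ O1 v)) with hSpdef
  have hTS : T ⊆ Sp := subset_union_left
  have hSpc : Sp.card ≤ s := by
    have h1 : (T.biUnion (fun v => nbr H v ∪ (I1 v ∪ O1 v))).card ≤ T.card * (N + 2 * k) := by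
      apply card_biUnion_le_card_mul
      intro v _
      have h2 := card_union_le (nbr H v) (I1 v ∪ O1 v)
      have h3 := card_union_le (I1 v) (O1 v)
      have h4 := hN v
      rw [hI1c, hO1c] at h3
      omega
    have h2 := card_union_le T (T.biUnion (fun v => nbr H v ∪ (I1 v ∪ O1 v)))
    have h3 : T.card * (N + 2 * k) ≤ 2 * t * (N + 2 * k) := Nat.mul_le_mul hTc le_rfl
    calc Sp.card ≤ T.card + T.card * (N + 2 * k) := by
          rw [hSpdef]
          exact h2.trans (Nat.add_le_add_left h1 _)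
      _ ≤ 2 * t + 2 * t * (N + 2 * k) := by omega
      _ = s := by rw [hsdef]; ring
  have hnS : ∀ v ∈ T, nbr H v ⊆ Sp := by
    intro v hv w hw
    exact mem_union_right _ (mem_biUnion.2 ⟨v, hv, mem_union_left _ hw⟩)
  have hIS : ∀ v ∈ T, I1 v ⊆ Sp := by
    intro v hv w hw
    exact mem_union_right _ (mem_biUnion.2 ⟨v, hv, mem_union_right _ (mem_union_left _ hw)⟩)
  have hOS : ∀ v ∈ T, O1 v ⊆ Sp := by
    intro v hv w hw
    exact mem_union_right _ (mem_biUnion.2 ⟨v, hv, mem_union_right _ (mem_union_right _ hw)⟩)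
  have hTinT : Tin ⊆ T := subset_union_left
  have hToutT : Tout ⊆ T := subset_union_right
  -- exceptional vertices
  set Ein : Finset V := univ.filter (fun v => v ∉ Sp ∧ (inN D v ∩ Tin).card < k) with hEin
  set Eout : Finset V := univ.filter (fun v => v ∉ Sp ∧ (inN (rev D) v ∩ Tout).card < k)
    with hEout
  obtain ⟨rin, -, -, hrin⟩ := exists_rank D C Ein.card Ein rfl (by
    intro X hX hne
    exact hXin X hne (disjoint_empty_right _) (by
      rw [disjoint_left]
      intro x hx hx'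
      exact (mem_filter.1 (hX hx)).2.1 (hTS (hTinT hx'))) (fun v hv =>
      (mem_filter.1 (hX hv)).2.2))
  obtain ⟨rout, -, -, hrout⟩ := exists_rank (rev D) C Eout.card Eout rfl (by
    intro X hX hne
    exact hXout X hne (by
      rw [disjoint_left]
      intro x hx hx'
      exact (mem_filter.1 (hX hx)).2.1 (hTS (hTinT hx'))) (by
      rw [disjoint_left]
      intro x hx hx'
      exact (mem_filter.1 (hX hx)).2.1 (hTS (hToutT hx'))) (fun v hv =>
      (mem_filter.1 (hX hv)).2.2))
  set Rin : V → ℕ := fun v => if v ∈ T then 0 else if v ∈ Sp then 1 else 2 + rin v with hRin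
  set Rout : V → ℕ := fun v => if v ∈ T then 0 else if v ∈ Sp then 1 else 2 + rout v with hRout
  have RinT : ∀ v ∈ T, Rin v = 0 := fun v hv => if_pos hv
  have RoutT : ∀ v ∈ T, Rout v = 0 := fun v hv => if_pos hv
  have RinN : ∀ v, v ∉ T → 0 < Rin v := by
    intro v hv
    rw [hRin]
    simp only
    rw [if_neg hv]
    split_ifs <;> omega
  have RoutN : ∀ v, v ∉ T → 0 < Rout v := by
    intro v hv
    rw [hRout]
    simp only
    rw [if_neg hv]
    split_ifs <;> omega
  -- all picks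
  have hpick : ∀ v, ∃ I O : Finset V, Disjoint I O ∧
      (∀ w ∈ I, D w v ∧ Rin v < Rin w ∧ w ∉ T ∧ w ∉ nbr H v) ∧
      (∀ w ∈ O, D v w ∧ Rout v < Rout w ∧ w ∉ T ∧ w ∉ nbr H v) ∧
      (¬ (v ∉ Sp ∧ k ≤ (inN D v ∩ Tin).card) → I.card = k) ∧
      (¬ (v ∉ Sp ∧ k ≤ (inN (rev D) v ∩ Tout).card) → O.card = k) ∧
      (v ∈ T → I ⊆ Sp ∧ O ⊆ Sp) := by
    intro v
    by_cases hv : v ∈ T
    · refine ⟨I1 v, O1 v, hIO1 v, ?_, ?_, fun _ => hI1c v, fun _ => hO1c v,
        fun _ => ⟨hIS v hv, hOS v hv⟩⟩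
      · intro w hw
        have h1 := mem_sdiff.1 (hI1 v hw)
        rw [mem_union, mem_inN] at h1
        push Not at h1
        refine ⟨h1.1, ?_, h1.2.1, h1.2.2⟩
        rw [RinT v hv]
        exact RinN w h1.2.1
      · intro w hw
        have h1 := mem_sdiff.1 (hO1 v hw)
        rw [mem_union, mem_inN] at h1
        push Not at h1
        refine ⟨h1.1, ?_, h1.2.1, h1.2.2⟩
        rw [RoutT v hv]
        exact RoutN w h1.2.1
    · have hin : ∃ A : Finset V, (∀ w ∈ A, D w v ∧ Rin v < Rin w ∧ w ∉ T ∧ w ∉ nbr H v) ∧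
          (¬ (v ∉ Sp ∧ k ≤ (inN D v ∩ Tin).card) → 2 * k ≤ A.card) := by
        refine ⟨((inN D v).filter (fun w => Rin v < Rin w ∧ w ∉ T ∧ w ∉ nbr H v)), ?_, ?_⟩
        · intro w hw
          rw [mem_filter, mem_inN] at hw
          exact hw
        · intro h
          exact local_picks (Tin := Tin) Ein hTS hSpc hN le_rfl hrin (fun v => by
            have := hdeg v
            omega) (fun w h1 h2 => mem_filter.2 ⟨mem_univ _, h1, h2⟩) v hv h
      have hout : ∃ A : Finset V, (∀ w ∈ A, D v w ∧ Rout v < Rout w ∧ w ∉ T ∧ w ∉ nbr H v) ∧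
          (¬ (v ∉ Sp ∧ k ≤ (inN (rev D) v ∩ Tout).card) → 2 * k ≤ A.card) := by
        refine ⟨((inN (rev D) v).filter (fun w => Rout v < Rout w ∧ w ∉ T ∧ w ∉ nbr H v)),
          ?_, ?_⟩
        · intro w hw
          rw [mem_filter, mem_inN] at hw
          exact hw
        · intro h
          exact local_picks (Tin := Tout) Eout hTS hSpc hN le_rfl hrout (fun v => by
            have := hdeg' v
            omega) (fun w h1 h2 => mem_filter.2 ⟨mem_univ _, h1, h2⟩) v hv h
      obtain ⟨A, hA1, hA2⟩ := hin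
      obtain ⟨B, hB1, hB2⟩ := hout
      by_cases c1 : ¬ (v ∉ Sp ∧ k ≤ (inN D v ∩ Tin).card)
      · by_cases c2 : ¬ (v ∉ Sp ∧ k ≤ (inN (rev D) v ∩ Tout).card)
        · obtain ⟨I, O, hI, hO, hIc, hOc, hIO⟩ := exists_picks (k := k) (A := A) (B := B)
            (by have := hA2 c1; omega) (hB2 c2)
          exact ⟨I, O, hIO, fun w hw => hA1 w (hI hw), fun w hw => hB1 w (hO hw),
            fun _ => hIc, fun _ => hOc, fun h => absurd h hv⟩
        · obtain ⟨I, hI, hIc⟩ := exists_subset_card_eq (s := A) (n := k)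
            (by have := hA2 c1; omega)
          exact ⟨I, ∅, disjoint_empty_right _, fun w hw => hA1 w (hI hw),
            fun w hw => absurd hw (notMem_empty w), fun _ => hIc, fun h => absurd h c2,
            fun h => absurd h hv⟩
      · by_cases c2 : ¬ (v ∉ Sp ∧ k ≤ (inN (rev D) v ∩ Tout).card)
        · obtain ⟨O, hO, hOc⟩ := exists_subset_card_eq (s := B) (n := k)
            (by have := hB2 c2; omega)
          exact ⟨∅, O, disjoint_empty_left _, fun w hw => absurd hw (notMem_empty w),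
            fun w hw => hB1 w (hO hw), fun h => absurd h c1, fun _ => hOc,
            fun h => absurd h hv⟩
        · exact ⟨∅, ∅, disjoint_empty_left _, fun w hw => absurd hw (notMem_empty w),
            fun w hw => absurd hw (notMem_empty w), fun h => absurd h c1, fun h => absurd h c2,
            fun h => absurd h hv⟩
  choose I O hIO hI hO hIc hOc hSp using hpick
  set TI : V → Prop := fun v => v ∉ Sp ∧ k ≤ (inN D v ∩ Tin).card with hTI
  set TO : V → Prop := fun v => v ∉ Sp ∧ k ≤ (inN (rev D) v ∩ Tout).card with hTO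
  set G : V → V → Prop := fun u v => H u v ∨ (u ∈ Tin ∧ TI v ∧ D u v) ∨
    (v ∈ Tout ∧ TO u ∧ D u v) ∨ u ∈ I v ∨ v ∈ O u with hG
  have hIn : ∀ u v, u ∈ I v → ¬ H u v ∧ ¬ H v u := fun u v h => by
    have := (hI v u h).2.2.2
    rw [mem_nbr] at this
    tauto
  have hOn : ∀ u v, u ∈ O v → ¬ H u v ∧ ¬ H v u := fun u v h => by
    have := (hO v u h).2.2.2
    rw [mem_nbr] at this
    tauto
  have hnTI : ∀ u v, u ∈ T → (H u v ∨ H v u) → v ∈ Sp := fun u v hu h =>
    hnS u hu (mem_nbr.2 h)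
  refine ⟨G, ⟨?_, ?_⟩, ?_, ?_⟩
  · -- subgraph
    rintro u v (h | ⟨_, _, h⟩ | ⟨_, _, h⟩ | h | h)
    · exact hHD _ _ h
    · exact h
    · exact h
    · exact (hI v u h).1
    · exact (hO u v h).1
  · -- oriented
    rintro u v (h | ⟨h1, h2, _⟩ | ⟨h1, h2, _⟩ | h | h) (h' | ⟨h1', h2', _⟩ | ⟨h1', h2', _⟩ | h' | h')
    · exact hHa _ _ h h'
    · exact h2'.1 (hnTI v u (hTinT h1') (Or.inr h))
    · exact h2'.1 (hnTI u v (hToutT h1') (Or.inl h))
    · exact (hIn _ _ h').2 h
    · exact (hOn _ _ h').1 h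
    · exact h2.1 (hnTI u v (hTinT h1) (Or.inr h'))
    · exact h2.1 (hTS (hTinT h1'))
    · exact (disjoint_left.1 hdis) h1' h1
    · exact h2.1 ((hSp u (hTinT h1)).1 h')
    · exact (hO v u h').2.2.1 (hTinT h1)
    · exact h2.1 (hnTI v u (hToutT h1) (Or.inl h'))
    · exact (disjoint_left.1 hdis) h1 h1'
    · exact h2.1 (hTS (hToutT h1'))
    · exact (hI u v h').2.2.1 (hToutT h1)
    · exact h2.1 ((hSp v (hToutT h1)).2 h')
    · exact (hIn _ _ h).2 h'
    · exact h2'.1 ((hSp v (hTinT h1')).1 h)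
    · exact (hI v u h).2.2.1 (hToutT h1')
    · exact absurd ((hI v u h).2.1.trans (hI u v h').2.1) (lt_irrefl _)
    · exact (disjoint_left.1 (hIO v)) h h'
    · exact (hOn _ _ h).1 h'
    · exact (hO u v h).2.2.1 (hTinT h1')
    · exact h2'.1 ((hSp u (hToutT h1')).2 h)
    · exact (disjoint_left.1 (hIO u)) h' h
    · exact absurd ((hO u v h).2.1.trans (hO v u h').2.1) (lt_irrefl _)
  · have := hK.1
    omega
  · intro X hX
    set R : V → V → Prop := fun a b => G a b ∧ a ∉ X ∧ b ∉ X with hR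
    have stepA : ∀ v, v ∉ X → ∃ w, w ∉ X ∧ TI w ∧ ReflTransGen R w v := by
      by_contra hne
      push Not at hne
      obtain ⟨v0, hv0, hv0'⟩ := hne
      set Bad : Finset V := univ.filter
        (fun v => v ∉ X ∧ ∀ w, w ∉ X → TI w → ¬ ReflTransGen R w v) with hBad
      obtain ⟨v, hv, hmax⟩ := Bad.exists_max_image Rin ⟨v0, mem_filter.2 ⟨mem_univ _, hv0, hv0'⟩⟩
      obtain ⟨_, hvX, hvb⟩ := mem_filter.1 hv
      have hvTI : ¬ TI v := fun h => hvb v hvX h ReflTransGen.refl
      obtain ⟨w, hw, hwX⟩ : ∃ w ∈ I v, w ∉ X := by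
        by_contra hcon
        push Not at hcon
        have h1 := card_le_card (show I v ⊆ X from hcon)
        rw [hIc v hvTI] at h1
        omega
      have hwb : w ∉ Bad := by
        intro h
        have h1 := hmax w h
        have h2 := (hI v w hw).2.1
        omega
      rw [hBad, mem_filter] at hwb
      push Not at hwb
      obtain ⟨z, hz, hzT, hzr⟩ := hwb (mem_univ _) hwX
      exact hvb z hz hzT (hzr.tail ⟨Or.inr (Or.inr (Or.inr (Or.inl hw))), hwX, hvX⟩)
    have stepB : ∀ v, v ∉ X → ∃ w, w ∉ X ∧ TO w ∧ ReflTransGen R v w := by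
      by_contra hne
      push Not at hne
      obtain ⟨v0, hv0, hv0'⟩ := hne
      set Bad : Finset V := univ.filter
        (fun v => v ∉ X ∧ ∀ w, w ∉ X → TO w → ¬ ReflTransGen R v w) with hBad
      obtain ⟨v, hv, hmax⟩ := Bad.exists_max_image Rout
        ⟨v0, mem_filter.2 ⟨mem_univ _, hv0, hv0'⟩⟩
      obtain ⟨_, hvX, hvb⟩ := mem_filter.1 hv
      have hvTI : ¬ TO v := fun h => hvb v hvX h ReflTransGen.refl
      obtain ⟨w, hw, hwX⟩ : ∃ w ∈ O v, w ∉ X := by
        by_contra hcon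
        push Not at hcon
        have h1 := card_le_card (show O v ⊆ X from hcon)
        rw [hOc v hvTI] at h1
        omega
      have hwb : w ∉ Bad := by
        intro h
        have h1 := hmax w h
        have h2 := (hO v w hw).2.1
        omega
      rw [hBad, mem_filter] at hwb
      push Not at hwb
      obtain ⟨z, hz, hzT, hzr⟩ := hwb (mem_univ _) hwX
      exact hvb z hz hzT (hzr.head ⟨Or.inr (Or.inr (Or.inr (Or.inr hw))), hvX, hwX⟩)
    intro u v hu hv
    obtain ⟨w, hwX, hwT, hwr⟩ := stepA v hv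
    obtain ⟨w', hwX', hwT', hwr'⟩ := stepB u hu
    obtain ⟨x, hx, hxX⟩ : ∃ x ∈ inN D w ∩ Tin, x ∉ X := by
      by_contra hcon
      push Not at hcon
      have h1 := card_le_card (show inN D w ∩ Tin ⊆ X from hcon)
      have h2 := hwT.2
      omega
    obtain ⟨y, hy, hyX⟩ : ∃ y ∈ inN (rev D) w' ∩ Tout, y ∉ X := by
      by_contra hcon
      push Not at hcon
      have h1 := card_le_card (show inN (rev D) w' ∩ Tout ⊆ X from hcon)
      have h2 := hwT'.2
      omega
    rw [mem_inter, mem_inN] at hx hy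
    have h1 : ReflTransGen R x v :=
      hwr.head ⟨Or.inr (Or.inl ⟨hx.2, hwT, hx.1⟩), hxX, hwX⟩
    have h2 : ReflTransGen R u y :=
      hwr'.tail ⟨Or.inr (Or.inr (Or.inl ⟨hy.2, hwT', hy.1⟩)), hwX', hyX⟩
    have h3 := hHr (y, x) (by
      rw [mem_toList, mem_product]
      exact ⟨hy.2, hx.2⟩) X hX hyX hxX
    have h4 : ReflTransGen R y x := rtg_mono (fun p q h => ⟨Or.inl h.1, h.2⟩) h3
    exact h2.trans (h4.trans h1)

end Pool.Agent.JT78
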