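import Pool.Agent.JT78.Core

/-!
# Digraphs of bounded independence number
-/

namespace Pool.Agent.JT78

open Finset Relation

open scoped Classical

universe u

section

variable {V : Type u} [Fintype V]

/-- every independent subset of `Y` has at most `α` elements -/
def IndepLe (α : ℕ) (D : V → V → Prop) (Y : Finset V) : Prop :=
  ∀ S ⊆ Y, (∀ u ∈ S, ∀ v ∈ S, u ≠ v → ¬ D u v) → S.card ≤ α

omit [Fintype V] in
theorem IndepLe.mono {α : ℕ} {D : V → V → Prop} {Y Y' : Finset V} (h : IndepLe α D Y)
    (hY : Y' ⊆ Y) : IndepLe α D Y' := fun S hS => h S (hS.trans hY)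

omit [Fintype V] in
theorem IndepLe.non {α : ℕ} {D : V → V → Prop} {Y : Finset V} (h : IndepLe (α + 1) D Y)
    {y : V} (hy : y ∈ Y) : IndepLe α D (Y.filter fun z => z ≠ y ∧ ¬ D y z ∧ ¬ D z y) := by
  intro S hS hind
  have hyS : y ∉ S := fun h => (mem_filter.1 (hS h)).2.1 rfl
  have := h (insert y S) (insert_subset hy (hS.trans (filter_subset _ _))) (by
    intro u hu v hv huv
    rcases mem_insert.1 hu with h1 | h1
    · rcases mem_insert.1 hv with h2 | h2
      · exact absurd (h1.trans h2.symm) huv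
      · rw [h1]
        exact (mem_filter.1 (hS h2)).2.2.1
    · rcases mem_insert.1 hv with h2 | h2
      · rw [h2]
        exact (mem_filter.1 (hS h1)).2.2.2
      · exact hind u h1 v h2 huv)
  rw [card_insert_of_notMem hyS] at this
  omega

omit [Fintype V] in
theorem exists_dominating (D : V → V → Prop) : ∀ (α : ℕ) (Y : Finset V), IndepLe α D Y →
    Y.Nonempty → ∃ x ∈ Y, Y.card ≤ 2 * α * (Y.filter fun y => y = x ∨ D x y).card := by
  intro α
  induction α with
  | zero =>
    intro Y h hne
    obtain ⟨y, hy⟩ := hne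
    have := h {y} (singleton_subset_iff.2 hy) (by
      intro u hu v hv huv
      rw [mem_singleton] at hu hv
      exact absurd (hu.trans hv.symm) huv)
    rw [card_singleton] at this
    omega
  | succ α ih =>
    intro Y h hne
    obtain ⟨x, hx, hmax⟩ := Y.exists_max_image
      (fun x => (Y.filter fun y => y = x ∨ D x y).card) hne
    refine ⟨x, hx, ?_⟩
    set Δ := (Y.filter fun y => y = x ∨ D x y).card with hΔ
    have hsum : ∑ y ∈ Y, (Y.filter fun x => y = x ∨ D x y).card ≤ ∑ _y ∈ Y, Δ := by
      calc ∑ y ∈ Y, (Y.filter fun x => y = x ∨ D x y).card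
          = ∑ y ∈ Y, ∑ x ∈ Y, if (y = x ∨ D x y) then 1 else 0 := by
            apply sum_congr rfl
            intro y _
            rw [card_filter]
        _ = ∑ x ∈ Y, ∑ y ∈ Y, if (y = x ∨ D x y) then 1 else 0 := sum_comm
        _ = ∑ x ∈ Y, (Y.filter fun y => y = x ∨ D x y).card := by
            apply sum_congr rfl
            intro y _
            rw [card_filter]
        _ ≤ ∑ _y ∈ Y, Δ := sum_le_sum hmax
    obtain ⟨y, hy, hyc⟩ := exists_le_of_sum_le hne hsum
    have hcov : Y ⊆ (Y.filter fun z => z = y ∨ D y z) ∪ (Y.filter fun x => y = x ∨ D x y) ∪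
        (Y.filter fun z => z ≠ y ∧ ¬ D y z ∧ ¬ D z y) := by
      intro z hz
      rw [mem_union, mem_union, mem_filter, mem_filter, mem_filter]
      tauto
    have h1 := card_le_card hcov
    have h2 := card_union_le ((Y.filter fun z => z = y ∨ D y z) ∪
      (Y.filter fun x => y = x ∨ D x y)) (Y.filter fun z => z ≠ y ∧ ¬ D y z ∧ ¬ D z y)
    have h3 := card_union_le (Y.filter fun z => z = y ∨ D y z)
      (Y.filter fun x => y = x ∨ D x y)
    have h4 := hmax y hy
    have h5 : (Y.filter fun z => z ≠ y ∧ ¬ D y z ∧ ¬ D z y).card ≤ 2 * α * Δ := by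
      by_cases hN : (Y.filter fun z => z ≠ y ∧ ¬ D y z ∧ ¬ D z y).Nonempty
      · obtain ⟨z, hz, hzc⟩ := ih _ (h.non hy) hN
        refine hzc.trans (Nat.mul_le_mul le_rfl ?_)
        refine le_trans (card_le_card ?_) (hmax z (mem_filter.1 hz).1)
        exact filter_subset_filter _ (filter_subset _ _)
      · rw [not_nonempty_iff_eq_empty.1 hN, card_empty]
        exact Nat.zero_le _
    have e : 2 * (α + 1) * Δ = 2 * Δ + 2 * α * Δ := by ring
    rw [e]
    omega

/-- undominated vertices -/
noncomputable def und (D : V → V → Prop) (Y A : Finset V) : Finset V :=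
  Y.filter fun y => y ∉ A ∧ ∀ x ∈ A, ¬ D x y

theorem mem_und {D : V → V → Prop} {Y A : Finset V} {y : V} :
    y ∈ und D Y A ↔ y ∈ Y ∧ y ∉ A ∧ ∀ x ∈ A, ¬ D x y := by
  rw [und, mem_filter]

theorem greedy (D : V → V → Prop) (a : ℕ) (j : ℕ) (Y : Finset V)
    (h : ∀ Y' ⊆ Y, Y'.Nonempty → ∃ x ∈ Y', Y'.card ≤
      (a + 1) * (Y'.filter fun y => y = x ∨ D x y).card) :
    ∃ A ⊆ Y, A.card ≤ j ∧ (a + 1) ^ j * (und D Y A).card ≤ a ^ j * Y.card := by
  induction j with
  | zero =>
    refine ⟨∅, empty_subset _, le_rfl, ?_⟩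
    rw [pow_zero, pow_zero, one_mul, one_mul]
    exact card_le_card (filter_subset _ _)
  | succ j ih =>
    obtain ⟨A, hA, hAc, hAu⟩ := ih
    by_cases hU : (und D Y A).Nonempty
    · obtain ⟨x, hx, hxc⟩ := h (und D Y A) (filter_subset _ _) hU
      refine ⟨insert x A, insert_subset (mem_und.1 hx).1 hA, ?_, ?_⟩
      · exact (card_insert_le _ _).trans (Nat.succ_le_succ hAc)
      · have h1 : und D Y (insert x A) ⊆ und D Y A \ ((und D Y A).filter fun y => y = x ∨ D x y) := by
          intro y hy
          rw [mem_und] at hy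
          rw [mem_sdiff, mem_filter, mem_und]
          obtain ⟨h1, h2, h3⟩ := hy
          rw [mem_insert] at h2
          push Not at h2
          refine ⟨⟨h1, h2.2, fun z hz => h3 z (mem_insert_of_mem hz)⟩, ?_⟩
          rintro ⟨_, h4 | h4⟩
          · exact h2.1 h4
          · exact h3 x (mem_insert_self _ _) h4
        have h2 := card_le_card h1
        rw [card_sdiff_of_subset (filter_subset _ _)] at h2
        have h3 := card_le_card (filter_subset (fun y => y = x ∨ D x y) (und D Y A))
        have h4 : (a + 1) * (und D Y (insert x A)).card ≤ a * (und D Y A).card := by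
          have h5 : (und D Y (insert x A)).card +
            ((und D Y A).filter fun y => y = x ∨ D x y).card ≤ (und D Y A).card := by omega
          have h6 := Nat.mul_le_mul (le_refl (a + 1)) h5
          have e1 : (a + 1) * ((und D Y (insert x A)).card +
            ((und D Y A).filter fun y => y = x ∨ D x y).card) =
            (a + 1) * (und D Y (insert x A)).card +
            (a + 1) * ((und D Y A).filter fun y => y = x ∨ D x y).card := by ring
          have e2 : (a + 1) * (und D Y A).card = a * (und D Y A).card + (und D Y A).card := by ring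
          omega
        calc (a + 1) ^ (j + 1) * (und D Y (insert x A)).card
            = (a + 1) ^ j * ((a + 1) * (und D Y (insert x A)).card) := by ring
          _ ≤ (a + 1) ^ j * (a * (und D Y A).card) := Nat.mul_le_mul le_rfl h4
          _ = a * ((a + 1) ^ j * (und D Y A).card) := by ring
          _ ≤ a * (a ^ j * Y.card) := Nat.mul_le_mul le_rfl hAu
          _ = a ^ (j + 1) * Y.card := by ring
    · refine ⟨A, hA, hAc.trans (Nat.le_succ _), ?_⟩
      rw [not_nonempty_iff_eq_empty.1 hU, card_empty, mul_zero]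
      exact Nat.zero_le _

end

theorem exists_pow (a M : ℕ) (ha : 1 ≤ a) : ∃ j : ℕ, M * a ^ j ≤ (a + 1) ^ j := by
  have ha' : (0 : ℝ) < a := by exact_mod_cast ha
  obtain ⟨j, hj⟩ := pow_unbounded_of_one_lt (M : ℝ) (show (1 : ℝ) < ((a : ℝ) + 1) / a by
    rw [lt_div_iff₀ ha']
    linarith)
  refine ⟨j, ?_⟩
  rw [div_pow, lt_div_iff₀ (pow_pos ha' j)] at hj
  exact_mod_cast hj.le

/-- greedy domination up to a fraction `1/M` -/
theorem exists_greedy (α M : ℕ) (hα : 1 ≤ α) : ∃ c : ℕ, ∀ (V : Type u) [Fintype V]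
    (D : V → V → Prop) (Y : Finset V), IndepLe α D Y →
    ∃ A ⊆ Y, A.card ≤ c ∧ M * (und D Y A).card ≤ Y.card := by
  obtain ⟨j, hj⟩ := exists_pow (2 * α - 1) M (by omega)
  refine ⟨j, fun V _ D Y hY => ?_⟩
  obtain ⟨A, hA, hAc, hAu⟩ := greedy D (2 * α - 1) j Y (fun Y' hY' hne => by
    obtain ⟨x, hx, h⟩ := exists_dominating D α Y' (hY.mono hY') hne
    refine ⟨x, hx, ?_⟩
    rwa [show 2 * α - 1 + 1 = 2 * α by omega])
  refine ⟨A, hA, hAc, ?_⟩
  have hpos : 0 < (2 * α - 1) ^ j := pow_pos (by omega) j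
  apply Nat.le_of_mul_le_mul_left _ hpos
  calc (2 * α - 1) ^ j * (M * (und D Y A).card)
      = (M * (2 * α - 1) ^ j) * (und D Y A).card := by ring
    _ ≤ (2 * α - 1 + 1) ^ j * (und D Y A).card := Nat.mul_le_mul hj le_rfl
    _ ≤ (2 * α - 1) ^ j * Y.card := hAu

/-- domination up to a thin exceptional set -/
theorem exists_dom (α : ℕ) : ∀ M : ℕ, ∃ c : ℕ, ∀ (V : Type u) [Fintype V]
    (D : V → V → Prop) (W Y : Finset V), Y ⊆ W → IndepLe α D Y →
    ∃ A ⊆ Y, A.card ≤ c ∧
      ∀ τ, M * ((und D Y A).filter fun u => (inN D u ∩ W).card ≤ τ).card ≤ τ := by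
  induction α with
  | zero =>
    intro M
    refine ⟨0, fun V _ D W Y _ hY => ⟨∅, empty_subset _, le_rfl, fun τ => ?_⟩⟩
    have hYe : Y = ∅ := by
      rw [eq_empty_iff_forall_notMem]
      intro y hy
      have := hY {y} (singleton_subset_iff.2 hy) (by
        intro u hu v hv huv
        rw [mem_singleton] at hu hv
        exact absurd (hu.trans hv.symm) huv)
      rw [card_singleton] at this
      omega
    have : ((und D Y ∅).filter fun u => (inN D u ∩ W).card ≤ τ) = ∅ := by
      rw [eq_empty_iff_forall_notMem]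
      intro y hy
      have := (mem_und.1 (mem_filter.1 hy).1).1
      rw [hYe] at this
      exact absurd this (notMem_empty _)
    rw [this, card_empty, mul_zero]
    exact Nat.zero_le _
  | succ α ih =>
    intro M
    obtain ⟨c1, hc1⟩ := exists_greedy (α + 1) (2 * M) (by omega)
    obtain ⟨c2, hc2⟩ := ih (2 * M)
    refine ⟨1 + c1 + c2, fun V _ D W Y hYW hY => ?_⟩
    by_cases hne : Y.Nonempty
    · obtain ⟨v, hv, hmin⟩ := Y.exists_min_image (fun u => (inN D u ∩ W).card) hne
      set Y1 := Y.filter fun u => D u v with hY1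
      set Y2 := Y.filter fun z => z ≠ v ∧ ¬ D v z ∧ ¬ D z v with hY2
      obtain ⟨A1, hA1, hA1c, hA1u⟩ := hc1 V D Y1 (hY.mono (filter_subset _ _))
      obtain ⟨A2, hA2, hA2c, hA2u⟩ := hc2 V D W Y2 ((filter_subset _ _).trans hYW) (hY.non hv)
      have hY1c : Y1.card ≤ (inN D v ∩ W).card := by
        apply card_le_card
        intro u hu
        exact mem_inter.2 ⟨mem_inN.2 (mem_filter.1 hu).2, hYW (mem_filter.1 hu).1⟩
      refine ⟨insert v (A1 ∪ A2), ?_, ?_, ?_⟩
      · exact insert_subset hv (union_subset (hA1.trans (filter_subset _ _))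
          (hA2.trans (filter_subset _ _)))
      · have h1 := card_insert_le v (A1 ∪ A2)
        have h2 := card_union_le A1 A2
        omega
      · intro τ
        have hsub : und D Y (insert v (A1 ∪ A2)) ⊆ und D Y1 A1 ∪ und D Y2 A2 := by
          intro u hu
          rw [mem_und] at hu
          obtain ⟨h1, h2, h3⟩ := hu
          rw [mem_insert, mem_union] at h2
          push Not at h2
          rw [mem_union, mem_und, mem_und]
          have hvu : ¬ D v u := h3 v (mem_insert_self _ _)
          by_cases huv : D u v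
          · left
            exact ⟨mem_filter.2 ⟨h1, huv⟩, h2.2.1, fun x hx =>
              h3 x (mem_insert_of_mem (mem_union_left _ hx))⟩
          · right
            exact ⟨mem_filter.2 ⟨h1, h2.1, hvu, huv⟩, h2.2.2, fun x hx =>
              h3 x (mem_insert_of_mem (mem_union_right _ hx))⟩
        by_cases hτ : (inN D v ∩ W).card ≤ τ
        · have h1 : ((und D Y (insert v (A1 ∪ A2))).filter
              fun u => (inN D u ∩ W).card ≤ τ).card ≤
              (und D Y1 A1).card +
              ((und D Y2 A2).filter fun u => (inN D u ∩ W).card ≤ τ).card := by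
            refine le_trans (card_le_card ?_) (card_union_le _ _)
            intro u hu
            rw [mem_filter] at hu
            rcases mem_union.1 (hsub hu.1) with h | h
            · exact mem_union_left _ h
            · exact mem_union_right _ (mem_filter.2 ⟨h, hu.2⟩)
          have h2 := hA2u τ
          have h3 := Nat.mul_le_mul (le_refl (2 * M)) h1
          rw [mul_add] at h3
          have h4 : 2 * M * ((und D Y (insert v (A1 ∪ A2))).filter
              fun u => (inN D u ∩ W).card ≤ τ).card =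
              2 * (M * ((und D Y (insert v (A1 ∪ A2))).filter
              fun u => (inN D u ∩ W).card ≤ τ).card) := by ring
          omega
        · have : ((und D Y (insert v (A1 ∪ A2))).filter
              fun u => (inN D u ∩ W).card ≤ τ) = ∅ := by
            rw [eq_empty_iff_forall_notMem]
            intro u hu
            rw [mem_filter] at hu
            exact hτ ((hmin u (mem_und.1 hu.1).1).trans hu.2)
          rw [this, card_empty, mul_zero]
          exact Nat.zero_le _
    · refine ⟨∅, empty_subset _, Nat.zero_le _, fun τ => ?_⟩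
      have : ((und D Y ∅).filter fun u => (inN D u ∩ W).card ≤ τ) = ∅ := by
        rw [eq_empty_iff_forall_notMem]
        intro y hy
        exact hne ⟨y, (mem_und.1 (mem_filter.1 hy).1).1⟩
      rw [this, card_empty, mul_zero]
      exact Nat.zero_le _

/-- repeated domination -/
theorem exists_rounds (α M : ℕ) : ∃ c : ℕ, ∀ (V : Type u) [Fintype V]
    (D : V → V → Prop) (W : Finset V), IndepLe α D W → ∀ (i : ℕ) (F : Finset V),
    ∃ T E : Finset V, T ⊆ W ∧ Disjoint T F ∧ T.card ≤ i * c ∧
      (∀ τ, M * (E.filter fun u => (inN D u ∩ W).card ≤ τ).card ≤ i * τ) ∧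
      ∀ v ∈ W, v ∉ F → v ∉ T → v ∉ E → i ≤ (inN D v ∩ T).card := by
  obtain ⟨c, hc⟩ := exists_dom α M
  refine ⟨c, fun V _ D W hD i => ?_⟩
  induction i with
  | zero =>
    intro F
    refine ⟨∅, ∅, empty_subset _, disjoint_empty_left _, Nat.zero_le _, fun τ => ?_,
      fun v _ _ _ _ => Nat.zero_le _⟩
    rw [filter_empty, card_empty, mul_zero]
    exact Nat.zero_le _
  | succ i ih =>
    intro F
    obtain ⟨A, hA, hAc, hAu⟩ := hc V D W (W \ F) sdiff_subset (hD.mono sdiff_subset)
    obtain ⟨T, E, hTW, hT, hTc, hE, hv⟩ := ih (F ∪ A)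
    have hAF : Disjoint A F := by
      rw [disjoint_left]
      intro x hx hx'
      exact (mem_sdiff.1 (hA hx)).2 hx'
    rw [disjoint_union_right] at hT
    refine ⟨A ∪ T, und D (W \ F) A ∪ E, union_subset (hA.trans sdiff_subset) hTW, ?_, ?_, ?_, ?_⟩
    · rw [disjoint_union_left]
      exact ⟨hAF, hT.1⟩
    · refine (card_union_le _ _).trans ?_
      rw [add_mul, one_mul]
      omega
    · intro τ
      have h1 : ((und D (W \ F) A ∪ E).filter fun u => (inN D u ∩ W).card ≤ τ).card ≤
          ((und D (W \ F) A).filter fun u => (inN D u ∩ W).card ≤ τ).card +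
          (E.filter fun u => (inN D u ∩ W).card ≤ τ).card := by
        rw [filter_union]
        exact card_union_le _ _
      have h2 := Nat.mul_le_mul (le_refl M) h1
      rw [mul_add] at h2
      have h3 := hE τ
      have h4 := hAu τ
      rw [add_mul, one_mul]
      omega
    · intro v hvW hvF hvT hvE
      rw [mem_union] at hvT hvE
      push Not at hvT hvE
      have h1 := hv v hvW (by
        rw [mem_union]
        push Not
        exact ⟨hvF, hvT.1⟩) hvT.2 hvE.2
      obtain ⟨x, hx, hxv⟩ : ∃ x ∈ A, D x v := by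
        by_contra hcon
        push Not at hcon
        exact hvE.1 (mem_und.2 ⟨mem_sdiff.2 ⟨hvW, hvF⟩, hvT.1, hcon⟩)
      have hxT : x ∉ T := fun h => (disjoint_left.1 hT.2) h hx
      have h2 : insert x (inN D v ∩ T) ⊆ inN D v ∩ (A ∪ T) := by
        intro z hz
        rcases mem_insert.1 hz with rfl | hz
        · exact mem_inter.2 ⟨mem_inN.2 hxv, mem_union_left _ hx⟩
        · rw [mem_inter] at hz
          exact mem_inter.2 ⟨hz.1, mem_union_right _ hz.2⟩
      have h3 := card_le_card h2
      rw [card_insert_of_notMem (fun h => hxT (mem_inter.1 h).2)] at h3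
      omega

theorem dpc_mixed (k α s : ℕ) (hk : 1 ≤ k) : ∃ t : ℕ, ∀ C : ℕ, ∀ (V : Type u) [Fintype V]
    (D : V → V → Prop) (W : Finset V), IndepLe α D W →
    (∀ X : Finset V, X.Nonempty → Disjoint X W → ∃ v ∈ X, (inN D v ∩ X).card ≤ s) →
    (∀ v, 2 * C + s ≤ (inN D v).card) → ∀ F : Finset V, DPC D k t C F := by
  obtain ⟨c, hc⟩ := exists_rounds α (2 * k)
  refine ⟨k * c, fun C V _ D W hD hU hdeg F => ?_⟩
  obtain ⟨T, E, hTW, hT, hTc, hE, hv⟩ := hc V D W hD k F
  refine ⟨T, hT, hTc, fun X hne hXF hXT hX => ?_⟩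
  have hXWE : X ∩ W ⊆ E := by
    intro u hu
    rw [mem_inter] at hu
    by_contra huE
    have := hv u hu.2 (fun h => (disjoint_left.1 hXF) hu.1 h)
      (fun h => (disjoint_left.1 hXT) hu.1 h) huE
    have := hX u hu.1
    omega
  by_cases hbig : ∃ v ∈ X, C ≤ (inN D v \ X).card
  · exact hbig
  push Not at hbig
  exfalso
  have hXW : (X ∩ W).card ≤ C := by
    by_cases hn : (X ∩ W).Nonempty
    · obtain ⟨v, hvX, hmax⟩ := (X ∩ W).exists_max_image (fun u => (inN D u ∩ W).card) hn
      have h1 : X ∩ W ⊆ E.filter fun u => (inN D u ∩ W).card ≤ (inN D v ∩ W).card := by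
        intro u hu
        exact mem_filter.2 ⟨hXWE hu, hmax u hu⟩
      have h2 := card_le_card h1
      have h3 := hE (inN D v ∩ W).card
      have h4 : 2 * k * (X ∩ W).card ≤ k * (inN D v ∩ W).card := (Nat.mul_le_mul le_rfl h2).trans h3
      have h5 : 2 * (X ∩ W).card ≤ (inN D v ∩ W).card := by
        apply Nat.le_of_mul_le_mul_left _ (show 0 < k by omega)
        calc k * (2 * (X ∩ W).card) = 2 * k * (X ∩ W).card := by ring
          _ ≤ _ := h4
      have h6 := hbig v (mem_inter.1 hvX).1
      have h7 : inN D v ∩ W ⊆ (inN D v \ X) ∪ (X ∩ W) := by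
        intro u hu
        rw [mem_inter] at hu
        rw [mem_union, mem_sdiff, mem_inter]
        tauto
      have h8 := (card_le_card h7).trans (card_union_le _ _)
      omega
    · rw [not_nonempty_iff_eq_empty.1 hn, card_empty]
      exact Nat.zero_le _
  by_cases hn : (X \ W).Nonempty
  · obtain ⟨v, hvX, hvs⟩ := hU (X \ W) hn sdiff_disjoint
    have h1 := hbig v (mem_sdiff.1 hvX).1
    have h2 := hdeg v
    have h3 : inN D v ⊆ (inN D v \ X) ∪ ((inN D v ∩ (X \ W)) ∪ (X ∩ W)) := by
      intro u hu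
      rw [mem_union, mem_union, mem_sdiff, mem_inter, mem_inter, mem_sdiff]
      tauto
    have h4 := (card_le_card h3).trans (card_union_le _ _)
    have h5 := card_union_le (inN D v ∩ (X \ W)) (X ∩ W)
    omega
  · obtain ⟨v, hvX⟩ := hne
    have h1 := hbig v hvX
    have h2 := hdeg v
    have h3 : inN D v ⊆ (inN D v \ X) ∪ (X ∩ W) := by
      intro u hu
      rw [mem_union, mem_sdiff, mem_inter]
      by_cases huX : u ∈ X
      · right
        refine ⟨huX, ?_⟩
        by_contra huW
        exact hn ⟨u, mem_sdiff.2 ⟨huX, huW⟩⟩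
      · exact Or.inl ⟨hu, huX⟩
    have h4 := (card_le_card h3).trans (card_union_le _ _)
    omega

/-- translation of the sparsity condition -/
theorem sparse_in {V : Type u} [Fintype V] {s : ℕ} {D : V → V → Prop} {W : Finset V} {U : Set V}
    (h : Sparse s D U) (hUW : ∀ v, v ∉ W → v ∈ U) (X : Finset V) (hne : X.Nonempty)
    (hXW : Disjoint X W) : ∃ v ∈ X, (inN D v ∩ X).card ≤ s := by
  obtain ⟨v, hv, h1⟩ := (h (X : Set V) (fun x hx => hUW x (fun h => (disjoint_left.1 hXW) hx h))
    hne).1
  refine ⟨v, hv, le_trans (le_of_eq ?_) h1⟩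
  rw [Set.ncard_eq_toFinset_card']
  congr 1
  ext u
  rw [mem_inter, mem_inN, Set.mem_toFinset, Set.mem_ofPred_eq]
  exact and_comm

theorem sparse_rev {V : Type u} {s : ℕ} {D : V → V → Prop} {U : Set V}
    (h : Sparse s D U) : Sparse s (rev D) U :=
  fun X hX hne => ⟨(h X hX hne).2, (h X hX hne).1⟩

/-- The Jackson-Thomassen property for digraphs whose vertex set splits into a set of bounded
independence number and a sparse set. -/
theorem jt_mixed (k α s : ℕ) (hk : 1 ≤ k) : ∃ f : ℕ, ∀ (V : Type u) [Fintype V]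
    (D : V → V → Prop) (W : Set V), Loopless D → KStrong f D →
    (∀ S : Finset V, (∀ u ∈ S, u ∈ W) → (∀ u ∈ S, ∀ v ∈ S, u ≠ v → ¬ D u v) → S.card ≤ α) →
    Sparse s D Wᶜ →
    ∃ H, SpanningOriented D H ∧ KStrong k H := by
  obtain ⟨t, ht⟩ := dpc_mixed.{u} k α s hk
  obtain ⟨C, f, hf⟩ := core.{u} k t
  refine ⟨max f (2 * C + s), fun V _ D W hl hK hα hU => ?_⟩
  have hK2 := hK.mono (le_max_right f (2 * C + s))
  have hdeg := le_inN_of_rob hl (rob_of_kstrong hK2) hK2.1
  have hdeg' := le_inN_of_rob (D := rev D) (fun v => hl v) (rob_of_kstrong (kstrong_rev hK2)) hK2.1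
  have hUW : ∀ v, v ∉ W.toFinset → v ∈ Wᶜ := fun v hv h => hv (Set.mem_toFinset.2 h)
  refine hf V D hl (hK.mono (le_max_left _ _)) (ht C V D W.toFinset (fun S hS h => ?_)
    (sparse_in hU hUW) hdeg ∅) (fun F _ => ht C V (rev D) W.toFinset (fun S hS h => ?_)
    (sparse_in (sparse_rev hU) hUW) hdeg' F)
  · exact hα S (fun u hu => Set.mem_toFinset.1 (hS hu)) h
  · exact hα S (fun u hu => Set.mem_toFinset.1 (hS hu))
      (fun u hu v hv huv => h v hv u hu (Ne.symm huv))

end Pool.Agent.JT78
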