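import Pool.Agent.JT78.Sample
import Pool.Agent.JT78.Indep

/-!
# Digraphs with a dense part and a sparse part
-/

namespace Pool.Agent.JT78

open Finset Relation

open scoped Classical

universe u

theorem dpc_dense (k s : ℕ) {ε : ℝ} (hε : 0 < ε) : ∃ t : ℕ, ∀ C : ℕ, ∃ f0 : ℕ,
    ∀ (V : Type u) [Fintype V] (D : V → V → Prop) (W : Finset V),
    (∀ v ∈ W, ε * W.card ≤ (inN D v ∩ W).card) →
    (∀ X : Finset V, X.Nonempty → Disjoint X W → ∃ v ∈ X, (inN D v ∩ X).card ≤ s) →
    (∀ v, f0 ≤ (inN D v).card) → ∀ F : Finset V, F.card ≤ t → DPC D k t C F := by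
  by_cases hε1 : 1 < ε
  · refine ⟨0, fun C => ⟨C + s, fun V _ D W hW hU hdeg F _ => ⟨∅, disjoint_empty_left _,
      Nat.zero_le _, fun X hne _ _ _ => ?_⟩⟩⟩
    have hWe : W = ∅ := by
      rw [eq_empty_iff_forall_notMem]
      intro v hv
      have h1 := hW v hv
      have h2 : ((inN D v ∩ W).card : ℝ) ≤ W.card := by
        exact_mod_cast card_le_card inter_subset_right
      have h3 : (0 : ℝ) < W.card := by exact_mod_cast card_pos.2 ⟨v, hv⟩
      nlinarith
    obtain ⟨v, hv, h1⟩ := hU X hne (by rw [hWe]; exact disjoint_empty_right _)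
    refine ⟨v, hv, ?_⟩
    have h2 := hdeg v
    have h3 := card_inter_add_card_sdiff (inN D v) X
    omega
  rw [not_lt] at hε1
  obtain ⟨j, hj⟩ := exists_steps k (ε := ε / 4) (η := ε / 2) (by positivity) (by linarith)
    (by positivity)
  refine ⟨k * j, fun C => ?_⟩
  obtain ⟨N1, hN1⟩ := exists_nat_gt ((k * j : ℕ) * (1 + 4 / ε) + (k * j : ℕ) * (2 / ε) +
    C * (2 / ε))
  refine ⟨N1 + s + C, fun V _ D W hW hU hdeg F hF => ?_⟩
  by_cases hWs : W.card < N1
  · refine ⟨∅, disjoint_empty_left _, Nat.zero_le _, fun X hne _ _ _ => ?_⟩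
    have hXW : (X ∩ W).card ≤ W.card := card_le_card inter_subset_right
    by_cases hn : (X \ W).Nonempty
    · obtain ⟨v, hvX, hvs⟩ := hU (X \ W) hn sdiff_disjoint
      refine ⟨v, (mem_sdiff.1 hvX).1, ?_⟩
      have h2 := hdeg v
      have h3 : inN D v ⊆ (inN D v \ X) ∪ ((inN D v ∩ (X \ W)) ∪ (X ∩ W)) := by
        intro u hu
        rw [mem_union, mem_union, mem_sdiff, mem_inter, mem_inter, mem_sdiff]
        tauto
      have h4 := (card_le_card h3).trans (card_union_le _ _)
      have h5 := card_union_le (inN D v ∩ (X \ W)) (X ∩ W)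
      omega
    · obtain ⟨v, hvX⟩ := hne
      refine ⟨v, hvX, ?_⟩
      have h2 := hdeg v
      have h3 : inN D v ⊆ (inN D v \ X) ∪ (X ∩ W) := by
        intro u hu
        rw [mem_union, mem_sdiff, mem_inter]
        by_cases huX : u ∈ X
        · right
          refine ⟨huX, ?_⟩
          by_contra huW
          exact hn ⟨u, mem_sdiff.2 ⟨huX, huW⟩⟩
        · exact Or.inl ⟨hu, huX⟩
      have h4 := (card_le_card h3).trans (card_union_le _ _)
      omega
  rw [not_lt] at hWs
  have hn : ((k * j : ℕ) : ℝ) * (1 + 4 / ε) + (k * j : ℕ) * (2 / ε) + C * (2 / ε) < W.card := by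
    refine lt_of_lt_of_le hN1 ?_
    exact_mod_cast hWs
  set t : ℝ := ((k * j : ℕ) : ℝ) with ht
  have ht0 : 0 ≤ t := Nat.cast_nonneg _
  have hC0 : (0 : ℝ) ≤ C := Nat.cast_nonneg _
  set n : ℝ := (W.card : ℝ) with hnd
  have hFt : (F.card : ℝ) ≤ t := by
    rw [ht]
    exact_mod_cast hF
  have e1 : ε * (t * (1 + 4 / ε) + t * (2 / ε) + C * (2 / ε)) = t * ε + 6 * t + 2 * C := by
    field_simp
    ring
  have e2 : t * ε + 6 * t + 2 * C < ε * n := by
    rw [← e1]
    exact mul_lt_mul_of_pos_left hn hε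
  have hQc : n - F.card ≤ ((W \ F : Finset V).card : ℝ) := by
    have h1 := le_card_sdiff F W
    have h2 : (W.card : ℝ) ≤ (W \ F).card + F.card := by
      exact_mod_cast (show W.card ≤ (W \ F).card + F.card by omega)
    linarith
  have hQc' : ((W \ F : Finset V).card : ℝ) ≤ n := by
    rw [hnd]
    exact_mod_cast card_le_card (sdiff_subset : W \ F ⊆ W)
  obtain ⟨T, hT, hTc, hTu⟩ := wrounds D (w := fun _ => (1 : ℝ)) (fun _ => zero_le_one)
    (ε := ε / 4) (by positivity) (by linarith) (Q := W \ F) (Z := W) (fun z hz => by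
      have h1 : (inN D z ∩ W).card ≤ (inN D z ∩ (W \ F)).card + F.card := by
        refine le_trans (card_le_card ?_) (card_union_le _ _)
        intro q hq
        rw [mem_inter] at hq
        rw [mem_union, mem_inter, mem_sdiff]
        tauto
      have h2 : ((inN D z ∩ W).card : ℝ) ≤ (inN D z ∩ (W \ F)).card + F.card := by
        exact_mod_cast h1
      have h3 := hW z hz
      have h4 : (0 : ℝ) ≤ F.card := Nat.cast_nonneg _
      nlinarith) j k (by nlinarith)
  refine ⟨T, ?_, hTc, fun X hne hXF hXT hX => ?_⟩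
  · rw [disjoint_left]
    intro x hx hx'
    exact (mem_sdiff.1 (hT hx)).2 hx'
  by_cases hn : (X ∩ W).Nonempty
  · obtain ⟨v, hv⟩ := hn
    refine ⟨v, (mem_inter.1 hv).1, ?_⟩
    have h1 : ((X ∩ W).card : ℝ) ≤ ε / 2 * n := by
      calc ((X ∩ W).card : ℝ) = wt (fun _ => (1 : ℝ)) (X ∩ W) := by
            rw [wt, sum_const, nsmul_eq_mul, mul_one]
        _ ≤ wt (fun _ => (1 : ℝ)) (W.filter fun z => (inN D z ∩ T).card < k) := by
            apply wt_mono (fun _ => zero_le_one)
            intro z hz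
            rw [mem_inter] at hz
            exact mem_filter.2 ⟨hz.2, hX z hz.1⟩
        _ ≤ k * ((1 - ε / 4) ^ j * wt (fun _ => (1 : ℝ)) W) := hTu
        _ = (k * (1 - ε / 4) ^ j) * n := by
            rw [wt, sum_const, nsmul_eq_mul, mul_one, ← hnd]
            ring
        _ ≤ ε / 2 * n := mul_le_mul_of_nonneg_right hj (Nat.cast_nonneg _)
    have h2 := hW v (mem_inter.1 hv).2
    have h3 : inN D v ∩ W ⊆ (inN D v \ X) ∪ (X ∩ W) := by
      intro u hu
      rw [mem_inter] at hu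
      rw [mem_union, mem_sdiff, mem_inter]
      tauto
    have h4 := (card_le_card h3).trans (card_union_le _ _)
    have h5 : ((inN D v ∩ W).card : ℝ) ≤ (inN D v \ X).card + (X ∩ W).card := by
      exact_mod_cast h4
    have h6 : (C : ℝ) ≤ (inN D v \ X).card := by nlinarith
    exact_mod_cast h6
  · have hXW : Disjoint X W := by
      rw [disjoint_iff_inter_eq_empty]
      exact not_nonempty_iff_eq_empty.1 hn
    obtain ⟨v, hv, h1⟩ := hU X hne hXW
    refine ⟨v, hv, ?_⟩
    have h2 := hdeg v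
    have h3 := card_inter_add_card_sdiff (inN D v) X
    omega

/-- The Jackson-Thomassen property for digraphs with a dense part and a sparse part. -/
theorem jt_dense (k s : ℕ) {ε : ℝ} (hε : 0 < ε) : ∃ f : ℕ, ∀ (V : Type u) [Fintype V]
    (D : V → V → Prop) (W : Set V), Loopless D → KStrong f D →
    (∀ v ∈ W, ε * W.ncard ≤ ({u | u ∈ W ∧ D u v} : Set V).ncard ∧
      ε * W.ncard ≤ ({u | u ∈ W ∧ D v u} : Set V).ncard) →
    Sparse s D Wᶜ →
    ∃ H, SpanningOriented D H ∧ KStrong k H := by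
  obtain ⟨t, ht⟩ := dpc_dense.{u} k s hε
  obtain ⟨C, f, hf⟩ := core.{u} k t
  obtain ⟨f0, hf0⟩ := ht C
  refine ⟨max f f0, fun V _ D W hl hK hW hU => ?_⟩
  have hK2 := hK.mono (le_max_right f f0)
  have hdeg := le_inN_of_rob hl (rob_of_kstrong hK2) hK2.1
  have hdeg' := le_inN_of_rob (D := rev D) (fun v => hl v) (rob_of_kstrong (kstrong_rev hK2)) hK2.1
  have hUW : ∀ v, v ∉ W.toFinset → v ∈ Wᶜ := fun v hv h => hv (Set.mem_toFinset.2 h)
  have e : ∀ (D : V → V → Prop) (v : V), (inN D v ∩ W.toFinset).card =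
      ({u | u ∈ W ∧ D u v} : Set V).ncard := by
    intro D v
    rw [Set.ncard_eq_toFinset_card']
    congr 1
    ext u
    rw [mem_inter, mem_inN, Set.mem_toFinset, Set.mem_toFinset, Set.mem_ofPred_eq]
    exact and_comm
  have eW : W.toFinset.card = W.ncard := by rw [Set.ncard_eq_toFinset_card']
  refine hf V D hl (hK.mono (le_max_left _ _)) (hf0 V D W.toFinset (fun v hv => ?_)
    (sparse_in hU hUW) hdeg ∅ (Nat.zero_le _))
    (fun F hF => hf0 V (rev D) W.toFinset (fun v hv => ?_) (sparse_in (sparse_rev hU) hUW)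
      hdeg' F hF)
  · rw [e, eW]
    exact (hW v (Set.mem_toFinset.1 hv)).1
  · rw [e, eW]
    exact (hW v (Set.mem_toFinset.1 hv)).2

end Pool.Agent.JT78
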