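import Pool.Agent.JT78.Defs

/-!
# Robustness, flows and linkages
-/

namespace Pool.Agent.JT78

open Finset Relation

open scoped Classical

universe u

variable {V : Type u} [Fintype V]

/-- in-neighbours -/
noncomputable def inN (D : V → V → Prop) (v : V) : Finset V := univ.filter fun u => D u v

/-- heads in `Y` of arcs from `X` -/
noncomputable def heads (D : V → V → Prop) (X Y : Finset V) : Finset V :=
  Y.filter fun y => ∃ x ∈ X, D x y

/-- tails in `X` of arcs to `Y` -/
noncomputable def tails (D : V → V → Prop) (X Y : Finset V) : Finset V :=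
  X.filter fun x => ∃ y ∈ Y, D x y

/-- neighbours -/
noncomputable def nbr (H : V → V → Prop) (v : V) : Finset V := univ.filter fun w => H v w ∨ H w v

theorem mem_nbr {H : V → V → Prop} {v w : V} : w ∈ nbr H v ↔ H v w ∨ H w v := by
  rw [nbr, mem_filter]
  exact ⟨fun h => h.2, fun h => ⟨mem_univ _, h⟩⟩

theorem mem_inN {H : V → V → Prop} {v w : V} : w ∈ inN H v ↔ H w v := by
  rw [inN, mem_filter]
  exact ⟨fun h => h.2, fun h => ⟨mem_univ _, h⟩⟩

omit [Fintype V] in
theorem mem_heads {D : V → V → Prop} {X Y : Finset V} {y : V} :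
    y ∈ heads D X Y ↔ y ∈ Y ∧ ∃ x ∈ X, D x y := by
  rw [heads, mem_filter]

omit [Fintype V] in
theorem mem_tails {D : V → V → Prop} {X Y : Finset V} {x : V} :
    x ∈ tails D X Y ↔ x ∈ X ∧ ∃ y ∈ Y, D x y := by
  rw [tails, mem_filter]

/-- robust connectivity -/
def Rob (f : ℕ) (D : V → V → Prop) : Prop :=
  ∀ X Y : Finset V, X.Nonempty → Y.Nonempty → Disjoint X Y →
    f ≤ (univ \ (X ∪ Y)).card + (heads D X Y).card + (tails D X Y).card

theorem Rob.mono {f g : ℕ} {D : V → V → Prop} (h : Rob f D) (hg : g ≤ f) : Rob g D :=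
  fun X Y hX hY hd => hg.trans (h X Y hX hY hd)

theorem rtg_mono {α : Type*} {r p : α → α → Prop} (h : ∀ a b, r a b → p a b) {x y : α}
    (hxy : ReflTransGen r x y) : ReflTransGen p x y := by
  induction hxy with
  | refl => exact .refl
  | tail _ h2 ih => exact ih.tail (h _ _ h2)

omit [Fintype V] in
/-- A reachable set stays inside an absorbing set. -/
theorem refl_mem {D : V → V → Prop} {A : Set V} (h : ∀ p q, p ∈ A → D p q → q ∈ A) {x y : V}
    (hx : x ∈ A) (hxy : ReflTransGen D x y) : y ∈ A := by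
  induction hxy with
  | refl => exact hx
  | tail _ h2 ih => exact h _ _ ih h2

theorem rob_of_kstrong {f : ℕ} {D : V → V → Prop} (h : KStrong f D) : Rob f D := by
  intro X Y hX hY hd
  by_contra hlt
  rw [not_le] at hlt
  have hHd : heads D X Y ⊆ Y := filter_subset _ _
  have hTl : tails D X Y ⊆ X := filter_subset _ _
  by_cases h1 : heads D X Y = Y
  · by_cases h2 : tails D X Y = X
    · rw [h1, h2] at hlt
      have e : (univ \ (X ∪ Y)).card + (X ∪ Y).card = Fintype.card V := by
        rw [card_sdiff_add_card_eq_card (subset_univ _), card_univ]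
      rw [card_union_of_disjoint hd] at e
      have := h.1
      omega
    · obtain ⟨x, hx, hx'⟩ : ∃ x ∈ X, x ∉ tails D X Y := by
        by_contra hne
        push Not at hne
        exact h2 (Subset.antisymm hTl hne)
      obtain ⟨y, hy⟩ := hY
      have hxY : x ∉ Y := fun h3 => (disjoint_left.1 hd) hx h3
      have hyX : y ∉ X := fun h3 => (disjoint_left.1 hd) h3 hy
      have hw := h.2 ((univ \ (X ∪ Y)) ∪ tails D X Y) (lt_of_le_of_lt (card_union_le _ _)
        (by omega)) x y (by
          rw [mem_union, mem_sdiff, mem_union]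
          push Not
          exact ⟨fun _ => Or.inl hx, hx'⟩) (by
          rw [mem_union, mem_sdiff, mem_union]
          push Not
          exact ⟨fun _ => Or.inr hy, fun h3 => hyX (hTl h3)⟩)
      have := refl_mem (A := {z | z ∈ X ∧ z ∉ tails D X Y}) (by
        rintro p q ⟨hp, hp'⟩ ⟨hpq, _, hq⟩
        rw [mem_union, mem_sdiff, mem_union] at hq
        push Not at hq
        rcases hq.1 (mem_univ _) with h4 | h4
        · exact ⟨h4, hq.2⟩
        · exact absurd (mem_filter.2 ⟨hp, q, h4, hpq⟩) hp') ⟨hx, hx'⟩ hw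
      exact hyX this.1
  · obtain ⟨y, hy, hy'⟩ : ∃ y ∈ Y, y ∉ heads D X Y := by
      by_contra hne
      push Not at hne
      exact h1 (Subset.antisymm hHd hne)
    obtain ⟨x, hx⟩ := hX
    have hxY : x ∉ Y := fun h3 => (disjoint_left.1 hd) hx h3
    have hyX : y ∉ X := fun h3 => (disjoint_left.1 hd) h3 hy
    have hw := h.2 ((univ \ (X ∪ Y)) ∪ heads D X Y) (lt_of_le_of_lt (card_union_le _ _)
      (by omega)) x y (by
        rw [mem_union, mem_sdiff, mem_union]
        push Not
        exact ⟨fun _ => Or.inl hx, fun h3 => hxY (hHd h3)⟩) (by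
        rw [mem_union, mem_sdiff, mem_union]
        push Not
        exact ⟨fun _ => Or.inr hy, hy'⟩)
    have := refl_mem (A := {z | z ∈ X}) (by
      rintro p q hp ⟨hpq, _, hq⟩
      rw [mem_union, mem_sdiff, mem_union] at hq
      push Not at hq
      rcases hq.1 (mem_univ _) with h4 | h4
      · exact h4
      · exact absurd (mem_filter.2 ⟨h4, p, hp, hpq⟩) hq.2) hx hw
    exact hyX this

/-- the minimum in-degree of an `f`-strong digraph is at least `f` -/
theorem le_inN_of_rob {f : ℕ} {D : V → V → Prop} (hl : Loopless D) (h : Rob f D)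
    (hc : f + 1 ≤ Fintype.card V) (v : V) : f ≤ (inN D v).card := by
  by_contra hlt
  rw [not_le] at hlt
  have hv : v ∉ inN D v := fun h3 => hl v (mem_filter.1 h3).2
  have hX : (univ \ (insert v (inN D v))).Nonempty := by
    rw [← card_pos]
    have e := card_sdiff_add_card_eq_card (subset_univ (insert v (inN D v)))
    rw [card_insert_of_notMem hv, card_univ] at e
    omega
  have := h _ {v} hX (singleton_nonempty v) (by
    rw [disjoint_singleton_right, mem_sdiff]
    push Not
    exact fun _ => mem_insert_self _ _)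
  have e1 : heads D (univ \ (insert v (inN D v))) {v} = ∅ := by
    rw [heads, filter_eq_empty_iff]
    rintro y hy ⟨x, hx, hxy⟩
    rw [mem_singleton.1 hy] at hxy
    rw [mem_sdiff] at hx
    exact hx.2 (mem_insert_of_mem (mem_filter.2 ⟨mem_univ _, hxy⟩))
  have e2 : tails D (univ \ (insert v (inN D v))) {v} = ∅ := by
    rw [tails, filter_eq_empty_iff]
    rintro x hx ⟨y, hy, hxy⟩
    rw [mem_singleton.1 hy] at hxy
    rw [mem_sdiff] at hx
    exact hx.2 (mem_insert_of_mem (mem_filter.2 ⟨mem_univ _, hxy⟩))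
  have e3 : (univ \ ((univ \ (insert v (inN D v))) ∪ {v})) ⊆ inN D v := by
    intro z hz
    rw [mem_sdiff, mem_union, mem_sdiff, mem_singleton] at hz
    push Not at hz
    have := hz.2.1 (mem_univ _)
    rw [mem_insert] at this
    exact this.resolve_left hz.2.2
  have e4 := card_le_card e3
  rw [e1, e2, card_empty] at this
  omega

/-- allowed pairs of the auxiliary bipartite graph -/
def Al (D : V → V → Prop) (b a : V) (k : ℕ) : V ⊕ Fin k → V ⊕ Fin k → Prop
  | Sum.inl v, Sum.inl w => v = w ∨ (v ≠ a ∧ v ≠ b ∧ w ≠ a ∧ w ≠ b ∧ D v w)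
  | Sum.inl v, Sum.inr _ => v ≠ a ∧ v ≠ b ∧ D v a
  | Sum.inr _, Sum.inl w => w ≠ a ∧ w ≠ b ∧ D b w
  | Sum.inr _, Sum.inr _ => False

theorem hall {g k : ℕ} {D : V → V → Prop} (hR : Rob g D) (hg : k + 2 ≤ g)
    {b a : V} (hab : b ≠ a) :
    ∃ φ : V ⊕ Fin k → V ⊕ Fin k, Function.Injective φ ∧ ∀ l, Al D b a k l (φ l) := by
  have key := (Finset.all_card_le_biUnion_card_iff_exists_injective
    (fun l => univ.filter (Al D b a k l))).1 (by
    intro P
    set B := P.biUnion (fun l => univ.filter (Al D b a k l)) with hB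
    rw [← card_toLeft_add_card_toRight (u := P), ← card_toLeft_add_card_toRight (u := B)]
    have hmB : ∀ r, r ∈ B ↔ ∃ l ∈ P, Al D b a k l r := by
      intro r
      rw [hB, mem_biUnion]
      constructor
      · rintro ⟨l, h1, h2⟩
        exact ⟨l, h1, (mem_filter.1 h2).2⟩
      · rintro ⟨l, h1, h2⟩
        exact ⟨l, h1, mem_filter.2 ⟨mem_univ _, h2⟩⟩
    have hsub : P.toLeft ⊆ B.toLeft := by
      intro v hv
      rw [mem_toLeft] at hv ⊢
      exact (hmB _).2 ⟨_, hv, Or.inl rfl⟩
    by_cases hr : P.toRight = ∅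
    · rw [hr, card_empty, add_zero]
      exact (card_le_card hsub).trans (Nat.le_add_right _ _)
    obtain ⟨i, hi⟩ := nonempty_iff_ne_empty.2 hr
    rw [mem_toRight] at hi
    have hPk : P.toRight.card ≤ k := by
      have := card_le_univ P.toRight
      rwa [Fintype.card_fin] at this
    by_cases hc : ∃ v, Sum.inl v ∈ P ∧ v ≠ a ∧ v ≠ b ∧ D v a
    · obtain ⟨v, hv, hva, hvb, hD⟩ := hc
      have : B.toRight = univ := by
        rw [eq_univ_iff_forall]
        intro j
        rw [mem_toRight]
        exact (hmB _).2 ⟨_, hv, hva, hvb, hD⟩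
      rw [this, card_univ, Fintype.card_fin]
      exact add_le_add (card_le_card hsub) hPk
    · push Not at hc
      set X : Finset V := insert b ((P.toLeft.erase a).erase b) with hX
      set N : Finset V := univ.filter (fun w => w ∉ X ∧ w ≠ a ∧ ∃ x ∈ X, D x w) with hN
      have hmX : ∀ x, x ∈ X ↔ x = b ∨ (x ≠ b ∧ x ≠ a ∧ Sum.inl x ∈ P) := by
        intro x
        rw [hX, mem_insert, mem_erase, mem_erase, mem_toLeft]
      have haX : a ∉ X := by
        rw [hmX]
        push Not
        exact ⟨hab.symm, fun _ h => absurd rfl h⟩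
      have hNB : N ⊆ B.toLeft := by
        intro w hw
        rw [hN, mem_filter] at hw
        obtain ⟨_, hwX, hwa, x, hx, hD⟩ := hw
        have hwb : w ≠ b := by
          intro h
          exact hwX ((hmX w).2 (Or.inl h))
        rw [mem_toLeft]
        rcases (hmX x).1 hx with h | h
        · subst h
          exact (hmB _).2 ⟨_, hi, hwa, hwb, hD⟩
        · exact (hmB _).2 ⟨_, h.2.2, Or.inr ⟨h.2.1, h.1, hwa, hwb, hD⟩⟩
      have hdj : Disjoint P.toLeft N := by
        rw [disjoint_left]
        intro w hw hw'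
        rw [hN, mem_filter] at hw'
        rw [mem_toLeft] at hw
        apply hw'.2.1
        rw [hmX]
        by_cases h : w = b
        · exact Or.inl h
        · exact Or.inr ⟨h, hw'.2.2.1, hw⟩
      have h1 : P.toLeft.card + N.card ≤ B.toLeft.card := by
        rw [← card_union_of_disjoint hdj]
        exact card_le_card (union_subset hsub hNB)
      have haN : a ∉ N := by
        rw [hN, mem_filter]
        push Not
        intro _ _ h
        exact absurd rfl h
      have h2 := hR X (univ \ (X ∪ N)) ⟨b, (hmX b).2 (Or.inl rfl)⟩ ⟨a, by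
        rw [mem_sdiff, mem_union]
        push Not
        exact ⟨mem_univ _, haX, haN⟩⟩ (by
        rw [disjoint_left]
        intro w hw hw'
        rw [mem_sdiff, mem_union] at hw'
        exact hw'.2 (Or.inl hw))
      have e1 : univ \ (X ∪ (univ \ (X ∪ N))) ⊆ N := by
        intro w hw
        rw [mem_sdiff, mem_union, mem_sdiff, mem_union] at hw
        push Not at hw
        have := hw.2.2 (mem_univ _)
        tauto
      have e2 : heads D X (univ \ (X ∪ N)) ⊆ {a} := by
        intro w hw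
        rw [heads, mem_filter, mem_sdiff, mem_union] at hw
        push Not at hw
        rw [mem_singleton]
        by_contra hwa
        exact hw.1.2.2 (mem_filter.2 ⟨mem_univ _, hw.1.2.1, hwa, hw.2⟩)
      have e3 : tails D X (univ \ (X ∪ N)) ⊆ {b} := by
        intro x hx
        rw [tails, mem_filter] at hx
        obtain ⟨hx, y, hy, hxy⟩ := hx
        rw [mem_sdiff, mem_union] at hy
        push Not at hy
        have hya : y = a := by
          by_contra hya
          exact hy.2.2 (mem_filter.2 ⟨mem_univ _, hy.2.1, hya, x, hx, hxy⟩)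
        subst hya
        rw [mem_singleton]
        rcases (hmX x).1 hx with h | h
        · exact h
        · exact absurd hxy (hc x h.2.2 h.2.1 h.1)
      have c1 := card_le_card e1
      have c2 := card_le_card e2
      have c3 := card_le_card e3
      rw [card_singleton] at c2 c3
      omega)
  obtain ⟨φ, h1, h2⟩ := key
  exact ⟨φ, h1, fun l => (mem_filter.1 (h2 l)).2⟩

/-- the auxiliary matching can be chosen without `2`-cycles -/
theorem hall' {g k : ℕ} {D : V → V → Prop} (hR : Rob g D) (hg : k + 2 ≤ g)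
    {b a : V} (hab : b ≠ a) :
    ∃ φ : V ⊕ Fin k → V ⊕ Fin k, Function.Injective φ ∧ (∀ l, Al D b a k l (φ l)) ∧
      ∀ u v, u ≠ v → φ (Sum.inl u) = Sum.inl v → φ (Sum.inl v) ≠ Sum.inl u := by
  obtain ⟨φ0, h1, h2⟩ := hall hR hg hab
  obtain ⟨φ, hφ, hmax⟩ := (univ.filter (fun φ : V ⊕ Fin k → V ⊕ Fin k =>
    Function.Injective φ ∧ ∀ l, Al D b a k l (φ l))).exists_max_image
    (fun φ => (univ.filter (fun v : V => φ (Sum.inl v) = Sum.inl v)).card)
    ⟨φ0, mem_filter.2 ⟨mem_univ _, h1, h2⟩⟩
  rw [mem_filter] at hφ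
  obtain ⟨_, hi, ha⟩ := hφ
  refine ⟨φ, hi, ha, fun u v huv h3 h4 => ?_⟩
  set ψ : V ⊕ Fin k → V ⊕ Fin k := fun l => Equiv.swap (Sum.inl u) (Sum.inl v) (φ l) with hψ
  have hu : ψ (Sum.inl u) = Sum.inl u := by
    rw [hψ]
    simp only
    rw [h3, Equiv.swap_apply_right]
  have hv : ψ (Sum.inl v) = Sum.inl v := by
    rw [hψ]
    simp only
    rw [h4, Equiv.swap_apply_left]
  have ho : ∀ l, l ≠ Sum.inl u → l ≠ Sum.inl v → ψ l = φ l := by
    intro l hlu hlv
    rw [hψ]
    simp only
    apply Equiv.swap_apply_of_ne_of_ne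
    · intro h
      exact hlv (hi (h.trans h4.symm))
    · intro h
      exact hlu (hi (h.trans h3.symm))
  have hψi : Function.Injective ψ := (Equiv.injective _).comp hi
  have hψa : ∀ l, Al D b a k l (ψ l) := by
    intro l
    by_cases hlu : l = Sum.inl u
    · rw [hlu, hu]
      exact Or.inl rfl
    by_cases hlv : l = Sum.inl v
    · rw [hlv, hv]
      exact Or.inl rfl
    rw [ho l hlu hlv]
    exact ha l
  have h5 := hmax ψ (mem_filter.2 ⟨mem_univ _, hψi, hψa⟩)
  have h6 : (univ.filter (fun v : V => φ (Sum.inl v) = Sum.inl v)) ⊂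
      (univ.filter (fun v : V => ψ (Sum.inl v) = Sum.inl v)) := by
    rw [ssubset_iff_of_subset]
    · refine ⟨u, mem_filter.2 ⟨mem_univ _, hu⟩, fun h => ?_⟩
      have := (mem_filter.1 h).2
      rw [h3] at this
      exact huv (Sum.inl_injective this).symm
    · intro w hw
      rw [mem_filter] at hw ⊢
      refine ⟨mem_univ _, ?_⟩
      by_cases hwu : w = u
      · rw [hwu, hu]
      by_cases hwv : w = v
      · rw [hwv, hv]
      rw [ho _ (fun h => hwu (Sum.inl_injective h)) (fun h => hwv (Sum.inl_injective h))]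
      exact hw.2
  exact absurd (card_lt_card h6) (not_lt.2 h5)

/-- `F` is a flow of value `k` from `b` to `a` (only the consequences that we need) -/
structure IsFlow (k : ℕ) (F : V → V → Prop) (b a : V) : Prop where
  anti : ∀ u v, F u v → ¬ F v u
  deg : ∀ v, (nbr F v).card ≤ 2 * k + 3
  entry : ∀ X : Finset V, (univ.filter fun y => y ∉ X ∧ ∃ x ∈ X, F y x).card ≤
    (univ.filter fun z => z ∉ X ∧ ∃ x ∈ X, F x z).card + 2 * k
  entry' : ∀ X : Finset V, (univ.filter fun x => x ∈ X ∧ ∃ y, y ∉ X ∧ F y x).card ≤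
    (univ.filter fun z => z ∉ X ∧ ∃ x ∈ X, F x z).card + 2 * k
  reach : ∀ Z : Finset V, Z.card < k → b ∉ Z → a ∉ Z →
    ReflTransGen (fun p q => F p q ∧ p ∉ Z ∧ q ∉ Z) b a

/-- the flow of a matching -/
def FF (b a : V) (k : ℕ) (φ : V ⊕ Fin k → V ⊕ Fin k) (u v : V) : Prop :=
  (u ≠ v ∧ φ (Sum.inl u) = Sum.inl v) ∨ (u = b ∧ ∃ i, φ (Sum.inr i) = Sum.inl v) ∨
    (v = a ∧ ∃ j, φ (Sum.inl u) = Sum.inr j)

section flow

variable {k : ℕ} {D : V → V → Prop} {b a : V} {φ : V ⊕ Fin k → V ⊕ Fin k}

omit [Fintype V] in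
theorem FF_le (ha : ∀ l, Al D b a k l (φ l)) {u v : V} (h : FF b a k φ u v) : D u v := by
  rcases h with ⟨h1, h2⟩ | ⟨h1, i, h2⟩ | ⟨h1, j, h2⟩
  · have := ha (Sum.inl u)
    rw [h2] at this
    rcases this with h3 | h3
    · exact absurd h3 h1
    · exact h3.2.2.2.2
  · have := ha (Sum.inr i)
    rw [h2] at this
    rw [h1]
    exact this.2.2
  · have := ha (Sum.inl u)
    rw [h2] at this
    rw [h1]
    exact this.2.2

omit [Fintype V] in
theorem FF_anti (hab : b ≠ a) (ha : ∀ l, Al D b a k l (φ l))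
    (hn : ∀ u v, u ≠ v → φ (Sum.inl u) = Sum.inl v → φ (Sum.inl v) ≠ Sum.inl u) {u v : V}
    (h : FF b a k φ u v) (h' : FF b a k φ v u) : False := by
  rcases h with ⟨h1, h2⟩ | ⟨h1, i, h2⟩ | ⟨h1, j, h2⟩
  · have A := ha (Sum.inl u)
    rw [h2] at A
    have A' := A.resolve_left h1
    rcases h' with ⟨h3, h4⟩ | ⟨h3, i', h4⟩ | ⟨h3, j', h4⟩
    · exact hn u v h1 h2 h4
    · exact A'.2.2.2.1 h3
    · exact A'.1 h3
  · have A := ha (Sum.inr i)
    rw [h2] at A
    rcases h' with ⟨h3, h4⟩ | ⟨h3, i', h4⟩ | ⟨h3, j', h4⟩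
    · have B := ha (Sum.inl v)
      rw [h4] at B
      exact (B.resolve_left h3).2.2.2.1 h1
    · exact A.2.1 h3
    · exact hab (h1.symm.trans h3)
  · have A := ha (Sum.inl u)
    rw [h2] at A
    rcases h' with ⟨h3, h4⟩ | ⟨h3, i', h4⟩ | ⟨h3, j', h4⟩
    · have B := ha (Sum.inl v)
      rw [h4] at B
      exact (B.resolve_left h3).1 h1
    · exact hab (h3.symm.trans h1)
    · exact A.1 h3

theorem FF_deg (hi : Function.Injective φ) (v : V) :
    (nbr (FF b a k φ) v).card ≤ 2 * k + 3 := by
  have hbij := Finite.injective_iff_bijective.1 hi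
  set ψ := (Equiv.ofBijective φ hbij).symm with hψ
  have hψφ : ∀ l r, φ l = r → l = ψ r := by
    intro l r h
    rw [hψ, Equiv.eq_symm_apply]
    exact h
  have hsub : nbr (FF b a k φ) v ⊆
      ((insert (Sum.inl v) (univ.image (Sum.inr : Fin k → V ⊕ Fin k))).image
        (fun l => Sum.elim id (fun _ => a) (φ l))) ∪
      (insert b ((insert (Sum.inl v) (univ.image (Sum.inr : Fin k → V ⊕ Fin k))).image
        (fun r => Sum.elim id (fun _ => b) (ψ r)))) := by
    intro w hw
    rw [mem_nbr] at hw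
    rw [mem_union]
    rcases hw with h | h
    · left
      rw [mem_image]
      rcases h with ⟨h1, h2⟩ | ⟨h1, i, h2⟩ | ⟨h1, j, h2⟩
      · exact ⟨Sum.inl v, mem_insert_self _ _, by rw [h2]; rfl⟩
      · exact ⟨Sum.inr i, mem_insert_of_mem (mem_image.2 ⟨i, mem_univ _, rfl⟩), by rw [h2]; rfl⟩
      · exact ⟨Sum.inl v, mem_insert_self _ _, by rw [h2, h1]; rfl⟩
    · right
      rw [mem_insert, mem_image]
      rcases h with ⟨h1, h2⟩ | ⟨h1, i, h2⟩ | ⟨h1, j, h2⟩
      · right
        refine ⟨Sum.inl v, mem_insert_self _ _, ?_⟩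
        rw [← hψφ _ _ h2]
        rfl
      · exact Or.inl h1
      · right
        refine ⟨Sum.inr j, mem_insert_of_mem (mem_image.2 ⟨j, mem_univ _, rfl⟩), ?_⟩
        rw [← hψφ _ _ h2]
        rfl
  refine (card_le_card hsub).trans ((card_union_le _ _).trans ?_)
  have c0 : (insert (Sum.inl v) (univ.image (Sum.inr : Fin k → V ⊕ Fin k))).card ≤ k + 1 := by
    refine (card_insert_le _ _).trans ?_
    have := card_image_le (s := (univ : Finset (Fin k))) (f := (Sum.inr : Fin k → V ⊕ Fin k))
    rw [card_univ, Fintype.card_fin] at this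
    omega
  have c1 := (card_image_le (s := insert (Sum.inl v) (univ.image (Sum.inr : Fin k → V ⊕ Fin k)))
    (f := fun l => Sum.elim id (fun _ => a) (φ l))).trans c0
  have c2 := (card_image_le (s := insert (Sum.inl v) (univ.image (Sum.inr : Fin k → V ⊕ Fin k)))
    (f := fun r => Sum.elim id (fun _ => b) (ψ r))).trans c0
  have c3 := card_insert_le b ((insert (Sum.inl v) (univ.image (Sum.inr : Fin k → V ⊕ Fin k))).image
        (fun r => Sum.elim id (fun _ => b) (ψ r)))
  omega

/-- left vertices attached to `X` -/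
noncomputable def LX (b : V) (k : ℕ) (X : Finset V) : Finset (V ⊕ Fin k) :=
  univ.filter fun l => Sum.elim (fun v => v ∈ X) (fun _ => b ∈ X) l

theorem card_LX_le (b : V) (k : ℕ) (X : Finset V) :
    (LX b k X).card ≤ X.card + k := by
  have : LX b k X ⊆ X.image Sum.inl ∪ univ.image Sum.inr := by
    intro l hl
    rw [LX, mem_filter] at hl
    rw [mem_union, mem_image, mem_image]
    rcases l with v | i
    · exact Or.inl ⟨v, hl.2, rfl⟩
    · exact Or.inr ⟨i, mem_univ _, rfl⟩
  refine (card_le_card this).trans ((card_union_le _ _).trans ?_)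
  have h1 := card_image_le (s := X) (f := (Sum.inl : V → V ⊕ Fin k))
  have h2 := card_image_le (s := (univ : Finset (Fin k))) (f := (Sum.inr : Fin k → V ⊕ Fin k))
  rw [card_univ, Fintype.card_fin] at h2
  omega

theorem le_card_LX (b : V) (k : ℕ) (X : Finset V) : X.card ≤ (LX b k X).card := by
  rw [← card_image_of_injective X (Sum.inl_injective : Function.Injective
    (Sum.inl : V → V ⊕ Fin k))]
  apply card_le_card
  intro l hl
  obtain ⟨v, hv, rfl⟩ := mem_image.1 hl
  exact mem_filter.2 ⟨mem_univ _, hv⟩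

theorem card_LX_of_mem (b : V) (k : ℕ) (X : Finset V) (hb : b ∈ X) :
    X.card + k ≤ (LX b k X).card := by
  have e : X.card + k = (X.image (Sum.inl : V → V ⊕ Fin k) ∪ univ.image Sum.inr).card := by
    rw [card_union_of_disjoint, card_image_of_injective _ Sum.inl_injective,
      card_image_of_injective _ Sum.inr_injective, card_univ, Fintype.card_fin]
    rw [disjoint_left]
    intro l h1 h2
    obtain ⟨v, _, rfl⟩ := mem_image.1 h1
    obtain ⟨i, _, h3⟩ := mem_image.1 h2
    cases h3
  rw [e]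
  apply card_le_card
  intro l hl
  rw [mem_union, mem_image, mem_image] at hl
  rcases hl with ⟨v, hv, rfl⟩ | ⟨i, _, rfl⟩
  · exact mem_filter.2 ⟨mem_univ _, hv⟩
  · exact mem_filter.2 ⟨mem_univ _, hb⟩

theorem card_LX_of_notMem (b : V) (k : ℕ) (X : Finset V) (hb : b ∉ X) :
    (LX b k X).card ≤ X.card := by
  have : LX b k X ⊆ X.image Sum.inl := by
    intro l hl
    rw [LX, mem_filter] at hl
    rw [mem_image]
    rcases l with v | i
    · exact ⟨v, hl.2, rfl⟩
    · exact absurd hl.2 hb
  exact (card_le_card this).trans card_image_le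

/-- entries and exits -/
theorem entry_exit (hi : Function.Injective φ) (A B : Finset (V ⊕ Fin k)) :
    (univ.filter fun l => l ∉ A ∧ φ l ∈ B).card + A.card =
      (univ.filter fun l => l ∈ A ∧ φ l ∉ B).card + B.card := by
  have hbij := Finite.injective_iff_bijective.1 hi
  have e1 : (univ.filter fun l => φ l ∈ B).card = B.card := by
    have : (univ.filter fun l => φ l ∈ B) = B.map (Equiv.ofBijective φ hbij).symm.toEmbedding := by
      ext l
      rw [mem_filter, mem_map]
      constructor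
      · intro h
        refine ⟨φ l, h.2, ?_⟩
        exact (Equiv.ofBijective φ hbij).symm_apply_apply l
      · rintro ⟨r, hr, rfl⟩
        refine ⟨mem_univ _, ?_⟩
        have : φ ((Equiv.ofBijective φ hbij).symm r) = r :=
          (Equiv.ofBijective φ hbij).apply_symm_apply r
        change φ ((Equiv.ofBijective φ hbij).symm r) ∈ B
        rw [this]
        exact hr
    rw [this, card_map]
  have e2 : (univ.filter fun l => φ l ∈ B).card = (univ.filter fun l => l ∉ A ∧ φ l ∈ B).card +
      (univ.filter fun l => l ∈ A ∧ φ l ∈ B).card := by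
    rw [← card_union_of_disjoint]
    · congr 1
      ext l
      rw [mem_union, mem_filter, mem_filter, mem_filter]
      tauto
    · rw [disjoint_left]
      intro l h1 h2
      exact (mem_filter.1 h1).2.1 (mem_filter.1 h2).2.1
  have e3 : A.card = (univ.filter fun l => l ∈ A ∧ φ l ∉ B).card +
      (univ.filter fun l => l ∈ A ∧ φ l ∈ B).card := by
    rw [← card_union_of_disjoint]
    · congr 1
      ext l
      rw [mem_union, mem_filter, mem_filter]
      have := mem_univ l
      tauto
    · rw [disjoint_left]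
      intro l h1 h2
      exact (mem_filter.1 h1).2.2 (mem_filter.1 h2).2.2
  omega

/-- number of entries -/
theorem entries_le (hi : Function.Injective φ) (X : Finset V) :
    (univ.filter fun l => l ∉ LX b k X ∧ φ l ∈ LX a k X).card ≤
    (univ.filter fun z => z ∉ X ∧ ∃ x ∈ X, FF b a k φ x z).card + 2 * k := by
  have h1 := entry_exit hi (LX b k X) (LX a k X)
  have h2 := le_card_LX b k X
  have h3 := card_LX_le a k X
  have h4 : (univ.filter fun l => l ∈ LX b k X ∧ φ l ∉ LX a k X).card ≤
      (univ.filter fun z => z ∉ X ∧ ∃ x ∈ X, FF b a k φ x z).card + k := by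
    rw [← card_image_of_injective (univ.filter fun l => l ∈ LX b k X ∧ φ l ∉ LX a k X) hi]
    have : (univ.filter fun l => l ∈ LX b k X ∧ φ l ∉ LX a k X).image φ ⊆
        (univ.filter fun z => z ∉ X ∧ ∃ x ∈ X, FF b a k φ x z).image Sum.inl ∪
          univ.image Sum.inr := by
      intro r hr
      obtain ⟨l, hl, rfl⟩ := mem_image.1 hr
      rw [mem_filter] at hl
      obtain ⟨_, hl1, hl2⟩ := hl
      rw [mem_union, mem_image, mem_image]
      rcases hφ : φ l with z | j
      · left
        refine ⟨z, ?_, rfl⟩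
        rw [hφ] at hl2
        have hz : z ∉ X := fun h => hl2 (mem_filter.2 ⟨mem_univ _, h⟩)
        rw [mem_filter]
        refine ⟨mem_univ _, hz, ?_⟩
        rcases l with x | i
        · have hx : x ∈ X := (mem_filter.1 hl1).2
          exact ⟨x, hx, Or.inl ⟨fun h => hz (h ▸ hx), hφ⟩⟩
        · have hx : b ∈ X := (mem_filter.1 hl1).2
          exact ⟨b, hx, Or.inr (Or.inl ⟨rfl, i, hφ⟩)⟩
      · right
        exact ⟨j, mem_univ _, rfl⟩
    refine (card_le_card this).trans ((card_union_le _ _).trans ?_)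
    have h5 := card_image_le (s := (univ.filter fun z => z ∉ X ∧ ∃ x ∈ X, FF b a k φ x z))
      (f := (Sum.inl : V → V ⊕ Fin k))
    have h6 := card_image_le (s := (univ : Finset (Fin k))) (f := (Sum.inr : Fin k → V ⊕ Fin k))
    rw [card_univ, Fintype.card_fin] at h6
    omega
  omega

theorem FF_entry (hi : Function.Injective φ) (X : Finset V) :
    (univ.filter fun y => y ∉ X ∧ ∃ x ∈ X, FF b a k φ y x).card ≤
    (univ.filter fun z => z ∉ X ∧ ∃ x ∈ X, FF b a k φ x z).card + 2 * k := by
  refine le_trans ?_ (entries_le hi X)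
  have : (univ.filter fun y => y ∉ X ∧ ∃ x ∈ X, FF b a k φ y x) ⊆
      (univ.filter fun l => l ∉ LX b k X ∧ φ l ∈ LX a k X).image
        (Sum.elim id (fun _ => b)) := by
    intro y hy
    rw [mem_filter] at hy
    obtain ⟨_, hy, x, hx, h⟩ := hy
    rw [mem_image]
    rcases h with ⟨h1, h2⟩ | ⟨h1, i, h2⟩ | ⟨h1, j, h2⟩
    · refine ⟨Sum.inl y, mem_filter.2 ⟨mem_univ _, fun h => hy (mem_filter.1 h).2, ?_⟩, rfl⟩
      rw [h2]
      exact mem_filter.2 ⟨mem_univ _, hx⟩
    · refine ⟨Sum.inr i, mem_filter.2 ⟨mem_univ _, fun h => hy ?_, ?_⟩, h1.symm⟩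
      · rw [h1]
        exact (mem_filter.1 h).2
      · rw [h2]
        exact mem_filter.2 ⟨mem_univ _, hx⟩
    · refine ⟨Sum.inl y, mem_filter.2 ⟨mem_univ _, fun h => hy (mem_filter.1 h).2, ?_⟩, rfl⟩
      rw [h2]
      refine mem_filter.2 ⟨mem_univ _, ?_⟩
      rw [h1] at hx
      exact hx
  exact (card_le_card this).trans card_image_le

theorem FF_entry' (hi : Function.Injective φ) (X : Finset V) :
    (univ.filter fun x => x ∈ X ∧ ∃ y, y ∉ X ∧ FF b a k φ y x).card ≤
    (univ.filter fun z => z ∉ X ∧ ∃ x ∈ X, FF b a k φ x z).card + 2 * k := by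
  refine le_trans ?_ (entries_le hi X)
  have : (univ.filter fun x => x ∈ X ∧ ∃ y, y ∉ X ∧ FF b a k φ y x) ⊆
      (univ.filter fun l => l ∉ LX b k X ∧ φ l ∈ LX a k X).image
        (fun l => Sum.elim id (fun _ => a) (φ l)) := by
    intro x hx
    rw [mem_filter] at hx
    obtain ⟨_, hx, y, hy, h⟩ := hx
    rw [mem_image]
    rcases h with ⟨h1, h2⟩ | ⟨h1, i, h2⟩ | ⟨h1, j, h2⟩
    · refine ⟨Sum.inl y, mem_filter.2 ⟨mem_univ _, fun h => hy (mem_filter.1 h).2, ?_⟩, ?_⟩
      · rw [h2]
        exact mem_filter.2 ⟨mem_univ _, hx⟩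
      · rw [h2]
        rfl
    · refine ⟨Sum.inr i, mem_filter.2 ⟨mem_univ _, fun h => hy ?_, ?_⟩, ?_⟩
      · rw [h1]
        exact (mem_filter.1 h).2
      · rw [h2]
        exact mem_filter.2 ⟨mem_univ _, hx⟩
      · rw [h2]
        rfl
    · refine ⟨Sum.inl y, mem_filter.2 ⟨mem_univ _, fun h => hy (mem_filter.1 h).2, ?_⟩, ?_⟩
      · rw [h2]
        refine mem_filter.2 ⟨mem_univ _, ?_⟩
        rw [h1] at hx
        exact hx
      · rw [h2, h1]
        rfl
  exact (card_le_card this).trans card_image_le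

theorem FF_reach (hi : Function.Injective φ) (ha : ∀ l, Al D b a k l (φ l)) (Z : Finset V)
    (hZ : Z.card < k) (hb : b ∉ Z) (haZ : a ∉ Z) :
    ReflTransGen (fun p q => FF b a k φ p q ∧ p ∉ Z ∧ q ∉ Z) b a := by
  by_contra hne
  set Q : Finset V := univ.filter
    (fun q => ReflTransGen (fun p q => FF b a k φ p q ∧ p ∉ Z ∧ q ∉ Z) b q) with hQ
  have hbQ : b ∈ Q := mem_filter.2 ⟨mem_univ _, ReflTransGen.refl⟩
  have haQ : a ∉ Q := fun h => hne (mem_filter.1 h).2
  have hQZ : ∀ q ∈ Q, q ∉ Z := by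
    intro q hq
    have := (mem_filter.1 hq).2
    rcases ReflTransGen.cases_tail this with h | ⟨c, _, h⟩
    · rw [h]
      exact hb
    · exact h.2.2
  have hcl : ∀ x ∈ Q, ∀ z, z ∉ Q → FF b a k φ x z → z ∈ Z := by
    intro x hx z hz h
    by_contra hzZ
    exact hz (mem_filter.2 ⟨mem_univ _, (mem_filter.1 hx).2.tail ⟨h, hQZ x hx, hzZ⟩⟩)
  have h1 := entry_exit hi (LX b k Q) (LX a k Q)
  have h2 := card_LX_of_mem b k Q hbQ
  have h3 := card_LX_of_notMem a k Q haQ
  have h4 : (univ.filter fun l => l ∈ LX b k Q ∧ φ l ∉ LX a k Q).card ≤ Z.card := by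
    rw [← card_image_of_injective (univ.filter fun l => l ∈ LX b k Q ∧ φ l ∉ LX a k Q) hi]
    have : (univ.filter fun l => l ∈ LX b k Q ∧ φ l ∉ LX a k Q).image φ ⊆
        Z.image Sum.inl := by
      intro r hr
      obtain ⟨l, hl, rfl⟩ := mem_image.1 hr
      rw [mem_filter] at hl
      obtain ⟨_, hl1, hl2⟩ := hl
      rw [mem_image]
      rcases hφ : φ l with z | j
      · rw [hφ] at hl2
        have hz : z ∉ Q := fun h => hl2 (mem_filter.2 ⟨mem_univ _, h⟩)
        refine ⟨z, ?_, rfl⟩
        rcases l with x | i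
        · have hx : x ∈ Q := (mem_filter.1 hl1).2
          exact hcl x hx z hz (Or.inl ⟨fun h => hz (h ▸ hx), hφ⟩)
        · exact hcl b hbQ z hz (Or.inr (Or.inl ⟨rfl, i, hφ⟩))
      · exfalso
        rcases l with x | i
        · have hx : x ∈ Q := (mem_filter.1 hl1).2
          exact haZ (hcl x hx a haQ (Or.inr (Or.inr ⟨rfl, j, hφ⟩)))
        · have := ha (Sum.inr i)
          rw [hφ] at this
          exact this
    exact (card_le_card this).trans card_image_le
  omega

theorem exists_flow {g : ℕ} (hR : Rob g D) (hg : k + 2 ≤ g) (hab : b ≠ a) :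
    ∃ F : V → V → Prop, (∀ u v, F u v → D u v) ∧ IsFlow k F b a := by
  obtain ⟨φ, hi, ha, hn⟩ := hall' hR hg hab
  exact ⟨FF b a k φ, fun u v => FF_le ha, fun u v h h' => FF_anti hab ha hn h h',
    FF_deg hi, FF_entry hi, FF_entry' hi, FF_reach hi ha⟩

end flow

/-- removing the reverse of a flow -/
theorem rob_sub {f g k : ℕ} {D F : V → V → Prop} {b a : V} (hR : Rob f D)
    (hFD : ∀ u v, F u v → D u v) (hF : IsFlow k F b a) (hfg : 3 * g + 4 * k ≤ f) :
    Rob g (fun u v => D u v ∧ ¬ F v u) := by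
  intro X Y hX hY hd
  set D' : V → V → Prop := fun u v => D u v ∧ ¬ F v u with hD'
  have h1 := hR X Y hX hY hd
  have hex : (univ.filter fun z => z ∉ X ∧ ∃ x ∈ X, F x z).card ≤
      (univ \ (X ∪ Y)).card + (heads D' X Y).card := by
    rw [← card_union_of_disjoint]
    · apply card_le_card
      intro z hz
      rw [mem_filter] at hz
      obtain ⟨_, hz, x, hx, h⟩ := hz
      rw [mem_union, mem_sdiff, mem_union]
      by_cases hzY : z ∈ Y
      · right
        exact mem_heads.2 ⟨hzY, x, hx, hFD _ _ h, hF.anti _ _ h⟩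
      · left
        exact ⟨mem_univ _, fun h => h.elim hz hzY⟩
    · rw [disjoint_left]
      intro z hz hz'
      rw [mem_sdiff, mem_union] at hz
      exact hz.2 (Or.inr (mem_heads.1 hz').1)
  have h2 := hF.entry X
  have h3 := hF.entry' X
  have h4 : (heads D X Y).card ≤ (heads D' X Y).card +
      (univ.filter fun y => y ∉ X ∧ ∃ x ∈ X, F y x).card := by
    refine le_trans (card_le_card ?_) (card_union_le _ _)
    intro y hy
    obtain ⟨hy, x, hx, h⟩ := mem_heads.1 hy
    rw [mem_union]
    by_cases hF' : F y x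
    · right
      exact mem_filter.2 ⟨mem_univ _, fun h => (disjoint_left.1 hd) h hy, x, hx, hF'⟩
    · left
      exact mem_heads.2 ⟨hy, x, hx, h, hF'⟩
  have h5 : (tails D X Y).card ≤ (tails D' X Y).card +
      (univ.filter fun x => x ∈ X ∧ ∃ y, y ∉ X ∧ F y x).card := by
    refine le_trans (card_le_card ?_) (card_union_le _ _)
    intro x hx
    obtain ⟨hx, y, hy, h⟩ := mem_tails.1 hx
    rw [mem_union]
    by_cases hF' : F y x
    · right
      exact mem_filter.2 ⟨mem_univ _, hx, y, fun h => (disjoint_left.1 hd) h hy, hF'⟩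
    · left
      exact mem_tails.2 ⟨hx, y, hy, h, hF'⟩
  omega

/-- the strength needed to link `n` pairs -/
def phi (k : ℕ) : ℕ → ℕ
  | 0 => 0
  | n + 1 => 3 * phi k n + 5 * k + 2

theorem exists_links (k : ℕ) : ∀ (l : List (V × V)) (D : V → V → Prop),
    (∀ q ∈ l, q.1 ≠ q.2) → Rob (phi k l.length) D →
    ∃ H : V → V → Prop, (∀ u v, H u v → D u v) ∧ (∀ u v, H u v → ¬ H v u) ∧
      (∀ v, (nbr H v).card ≤ l.length * (2 * k + 3)) ∧
      ∀ q ∈ l, ∀ Z : Finset V, Z.card < k → q.1 ∉ Z → q.2 ∉ Z →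
        ReflTransGen (fun p q => H p q ∧ p ∉ Z ∧ q ∉ Z) q.1 q.2 := by
  intro l
  induction l with
  | nil =>
    intro D _ _
    refine ⟨fun _ _ => False, fun _ _ h => h.elim, fun _ _ h => h.elim, fun v => ?_, ?_⟩
    · have : nbr (fun _ _ => False) v = ∅ := by
        rw [eq_empty_iff_forall_notMem]
        intro w hw
        rcases mem_nbr.1 hw with h | h <;> exact h
      rw [this]
      simp
    · intro q hq
      simp at hq
  | cons q l ih =>
    intro D hl hR
    rw [List.length_cons, phi] at hR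
    obtain ⟨F, hFD, hF⟩ := exists_flow (k := k) (b := q.1) (a := q.2) hR (by omega)
      (hl q (List.mem_cons_self ..))
    have hR' := rob_sub (g := phi k l.length) hR hFD hF (by omega)
    obtain ⟨H, hHD, hHa, hHd, hHr⟩ := ih _ (fun q hq => hl q (List.mem_cons_of_mem _ hq)) hR'
    refine ⟨fun u v => F u v ∨ H u v, ?_, ?_, ?_, ?_⟩
    · rintro u v (h | h)
      · exact hFD _ _ h
      · exact (hHD _ _ h).1
    · rintro u v (h | h) (h' | h')
      · exact hF.anti _ _ h h'
      · exact (hHD _ _ h').2 h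
      · exact (hHD _ _ h).2 h'
      · exact hHa _ _ h h'
    · intro v
      have e' : nbr (fun u v => F u v ∨ H u v) v ⊆ nbr F v ∪ nbr H v := by
        intro w hw
        rw [mem_union, mem_nbr, mem_nbr]
        have := mem_nbr.1 hw
        tauto
      refine (card_le_card e').trans ((card_union_le _ _).trans ?_)
      rw [List.length_cons, add_mul, one_mul, add_comm]
      exact add_le_add (hHd v) (hF.deg v)
    · intro q' hq' Z hZ h1 h2
      rcases List.mem_cons.1 hq' with h | h
      · rw [h] at h1 h2 ⊢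
        exact rtg_mono (fun p q h => ⟨Or.inl h.1, h.2⟩) (hF.reach Z hZ h1 h2)
      · exact rtg_mono (fun p q h => ⟨Or.inr h.1, h.2⟩) (hHr q' h Z hZ h1 h2)

end Pool.Agent.JT78
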