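import Pool.Agent.JT78.Sample

/-!
# Semicomplete multipartite digraphs
-/

namespace Pool.Agent.JT78

open Finset Relation

open scoped Classical

universe u

theorem exists_smallest {V : Type u} (g : V → ℕ) (S : Finset V) (m : ℕ) (hm : m ≤ S.card) :
    ∃ T ⊆ S, T.card = m ∧ ∀ x ∈ T, ∀ u ∈ S, u ∉ T → g x ≤ g u := by
  induction m with
  | zero =>
    exact ⟨∅, empty_subset _, rfl, fun x hx => absurd hx (notMem_empty x)⟩
  | succ m ih =>
    obtain ⟨T, hT, hTc, hTg⟩ := ih (by omega)
    have hne : (S \ T).Nonempty := by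
      rw [← card_pos, card_sdiff_of_subset hT]
      omega
    obtain ⟨y, hy, hmin⟩ := (S \ T).exists_min_image g hne
    rw [mem_sdiff] at hy
    refine ⟨insert y T, insert_subset hy.1 hT, by rw [card_insert_of_notMem hy.2, hTc], ?_⟩
    intro x hx u hu huT
    rw [mem_insert] at huT
    push Not at huT
    rcases mem_insert.1 hx with h | h
    · rw [h]
      exact hmin u (mem_sdiff.2 ⟨hu, huT.2⟩)
    · exact hTg x h u hu huT.2

section

variable {V : Type u} [Fintype V] (D : V → V → Prop) (c : V → ℕ)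

/-- the part of `u` holds more than half of `T₁` -/
def PS (c : V → ℕ) (k : ℕ) (T1 : Finset V) (u : V) : Prop :=
  3 * k < (T1.filter fun x => c x = c u).card

omit [Fintype V] in
theorem PS_same {c : V → ℕ} {k : ℕ} {T1 : Finset V} (hT : T1.card = 6 * k) {u v : V}
    (hu : PS c k T1 u) (hv : PS c k T1 v) : c u = c v := by
  by_contra hne
  have hd : Disjoint (T1.filter fun x => c x = c u) (T1.filter fun x => c x = c v) := by
    rw [disjoint_left]
    intro x hx hx'
    exact hne ((mem_filter.1 hx).2.symm.trans (mem_filter.1 hx').2)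
  have h1 := card_le_card (union_subset (filter_subset (fun x => c x = c u) T1)
    (filter_subset (fun x => c x = c v) T1))
  rw [card_union_of_disjoint hd] at h1
  unfold PS at hu hv
  omega

variable {D c}

/-- the number of candidates outside the majority part is small -/
theorem card_Q_le (hc : ∀ u v, (D u v ∨ D v u) ↔ c u ≠ c v) {k : ℕ} (hk : 1 ≤ k) {T1 Q : Finset V}
    (hT : T1.card = 6 * k) {δ : ℕ} (hδ : ∀ x ∈ T1, (inN D x).card ≤ δ)
    (hQ : ∀ u ∈ Q, ¬ PS c k T1 u ∧ (inN D u ∩ T1).card < k) : Q.card ≤ 3 * δ := by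
  have h1 : ∀ u ∈ Q, 2 * k ≤ (T1.filter fun x => D u x).card := by
    intro u hu
    obtain ⟨h2, h3⟩ := hQ u hu
    unfold PS at h2
    have h4 : T1 ⊆ (T1.filter fun x => c x = c u) ∪ ((inN D u ∩ T1) ∪
        (T1.filter fun x => D u x)) := by
      intro x hx
      rw [mem_union, mem_union, mem_filter, mem_inter, mem_inN, mem_filter]
      by_cases hxu : c x = c u
      · exact Or.inl ⟨hx, hxu⟩
      · rcases (hc x u).2 hxu with h | h
        · exact Or.inr (Or.inl ⟨h, hx⟩)
        · exact Or.inr (Or.inr ⟨hx, h⟩)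
    have h5 := card_le_card h4
    have h6 := card_union_le (T1.filter fun x => c x = c u) ((inN D u ∩ T1) ∪
        (T1.filter fun x => D u x))
    have h7 := card_union_le (inN D u ∩ T1) (T1.filter fun x => D u x)
    omega
  have h2 : ∑ u ∈ Q, (T1.filter fun x => D u x).card = ∑ x ∈ T1, (Q.filter fun u => D u x).card := by
    simp_rw [card_filter]
    exact sum_comm
  have h3 : Q.card * (2 * k) ≤ ∑ u ∈ Q, (T1.filter fun x => D u x).card := by
    rw [← smul_eq_mul]
    exact card_nsmul_le_sum _ _ _ h1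
  have h4 : ∑ x ∈ T1, (Q.filter fun u => D u x).card ≤ T1.card * δ := by
    rw [← smul_eq_mul]
    refine sum_le_card_nsmul _ _ _ (fun x hx => le_trans (card_le_card ?_) (hδ x hx))
    intro u hu
    exact mem_inN.2 (mem_filter.1 hu).2
  rw [hT] at h4
  have h5 : k * (2 * Q.card) ≤ k * (6 * δ) := by
    calc k * (2 * Q.card) = Q.card * (2 * k) := by ring
      _ ≤ 6 * k * δ := h3.trans (h2.le.trans h4)
      _ = k * (6 * δ) := by ring
  have h6 := Nat.le_of_mul_le_mul_left h5 (by omega)
  omega

/-- structure of a bad set -/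
theorem bad_set (hc : ∀ u v, (D u v ∨ D v u) ↔ c u ≠ c v) {k : ℕ} {T1 X : Finset V}
    (hT : T1.card = 6 * k) {δ : ℕ} (hne : X.Nonempty) (hδ : ∀ v ∈ X, δ ≤ (inN D v).card)
    (hX : ∀ v ∈ X, 2 * (inN D v \ X).card < (inN D v).card) :
    δ < 2 * (X.filter fun v => ¬ PS c k T1 v).card ∧
    ∀ v ∈ X, PS c k T1 v → inN D v ∩ X ⊆ X.filter fun v => ¬ PS c k T1 v := by
  have h1 : ∀ v ∈ X, PS c k T1 v → inN D v ∩ X ⊆ X.filter fun v => ¬ PS c k T1 v := by
    intro v _ hv u hu
    rw [mem_inter, mem_inN] at hu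
    refine mem_filter.2 ⟨hu.2, fun h => ?_⟩
    exact (hc u v).1 (Or.inl hu.1) (PS_same hT h hv)
  refine ⟨?_, h1⟩
  obtain ⟨v, hv, hsub⟩ : ∃ v ∈ X, inN D v ∩ X ⊆ X.filter fun v => ¬ PS c k T1 v := by
    by_cases h : ∃ v ∈ X, PS c k T1 v
    · obtain ⟨v, hv, h2⟩ := h
      exact ⟨v, hv, h1 v hv h2⟩
    · push Not at h
      obtain ⟨v, hv⟩ := hne
      refine ⟨v, hv, fun u hu => ?_⟩
      exact mem_filter.2 ⟨(mem_inter.1 hu).2, h u (mem_inter.1 hu).2⟩
  have h2 := card_le_card hsub
  have h3 := hX v hv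
  have h4 := hδ v hv
  have h5 := card_inter_add_card_sdiff (inN D v) X
  omega

end

theorem dp_multi (k : ℕ) (hk : 1 ≤ k) : ∃ t f0 : ℕ, ∀ (V : Type u) [Fintype V]
    (D : V → V → Prop) (c : V → ℕ), (∀ u v, (D u v ∨ D v u) ↔ c u ≠ c v) →
    (∀ v, f0 ≤ (inN D v).card) → ∀ F : Finset V, F.card ≤ t → DP D k t F := by
  obtain ⟨j, hj⟩ := exists_steps k (ε := 1 / 24) (η := 1 / 48) (by norm_num) (by norm_num)
    (by norm_num)
  refine ⟨6 * k + k * j, 12 * k + 100 * (k * j) + 1, fun V _ D c hc hdeg F hF => ?_⟩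
  rcases isEmpty_or_nonempty V with hV | ⟨⟨v0⟩⟩
  · exact ⟨∅, disjoint_empty_left _, Nat.zero_le _, fun X ⟨x, _⟩ => (hV.false x).elim⟩
  have hn : 12 * k + 100 * (k * j) + 1 ≤ Fintype.card V := (hdeg v0).trans (card_le_univ _)
  have hS : 6 * k ≤ (univ \ F : Finset V).card := by
    rw [card_sdiff_of_subset (subset_univ _), card_univ]
    omega
  obtain ⟨T1, hT1, hT1c, hT1g⟩ := exists_smallest (fun v => (inN D v).card) (univ \ F) (6 * k) hS
  have hT1ne : T1.Nonempty := by
    rw [← card_pos]
    omega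
  obtain ⟨x0, hx0, hmax⟩ := T1.exists_max_image (fun v => (inN D v).card) hT1ne
  set δ := (inN D x0).card with hδ
  have hδf : 12 * k + 100 * (k * j) + 1 ≤ δ := hdeg x0
  have hδu : ∀ u, u ∉ F → u ∉ T1 → δ ≤ (inN D u).card := fun u hu hu' =>
    hT1g x0 hx0 u (mem_sdiff.2 ⟨mem_univ _, hu⟩) hu'
  have hT1F : Disjoint T1 F := by
    rw [disjoint_left]
    intro x hx hx'
    exact (mem_sdiff.1 (hT1 hx)).2 hx'
  set W : Finset V := univ.filter (fun u => u ∉ F ∧ u ∉ T1 ∧ (inN D u ∩ T1).card < k) with hW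
  set Q : Finset V := W.filter (fun u => ¬ PS c k T1 u) with hQ
  have hQc : Q.card ≤ 3 * δ := by
    refine card_Q_le hc hk hT1c hmax (fun u hu => ?_)
    rw [hQ, mem_filter, hW, mem_filter] at hu
    exact ⟨hu.2, hu.1.2.2.2⟩
  have hQW : Q ⊆ W := filter_subset _ _
  by_cases hsm : 2 * Q.card ≤ δ
  · refine ⟨T1, hT1F, by omega, fun X hne hXF hXT hX => ?_⟩
    by_contra hcon
    push Not at hcon
    have h1 := (bad_set hc hT1c hne (fun v hv => hδu v (fun h => (disjoint_left.1 hXF) hv h)
      (fun h => (disjoint_left.1 hXT) hv h)) hcon).1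
    have h2 : (X.filter fun v => ¬ PS c k T1 v) ⊆ Q := by
      intro v hv
      rw [mem_filter] at hv
      refine mem_filter.2 ⟨mem_filter.2 ⟨mem_univ _, fun h => (disjoint_left.1 hXF) hv.1 h,
        fun h => (disjoint_left.1 hXT) hv.1 h, hX v hv.1⟩, hv.2⟩
    have h3 := card_le_card h2
    omega
  rw [not_le] at hsm
  have hdpos : ∀ v, (0 : ℝ) < (inN D v).card := by
    intro v
    have := hdeg v
    exact_mod_cast (show 0 < (inN D v).card by omega)
  set Z : Finset V := W.filter (fun z => (inN D z).card ≤ 4 * (inN D z ∩ Q).card) with hZ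
  set w : V → ℝ := fun z => if PS c k T1 z then
    ∑ v ∈ Q, (if D z v then 1 / ((inN D v).card : ℝ) else 0) else 1 with hw
  have hterm : ∀ z v, (0 : ℝ) ≤ if D z v then 1 / ((inN D v).card : ℝ) else 0 := by
    intro z v
    split_ifs
    · exact (div_pos one_pos (hdpos v)).le
    · exact le_rfl
  have hw0 : ∀ z, 0 ≤ w z := by
    intro z
    rw [hw]
    simp only
    split_ifs
    · exact sum_nonneg (fun v _ => hterm z v)
    · exact zero_le_one
  have hWZ : wt w Z ≤ 2 * Q.card := by
    have e1 : wt w Z = wt w (Z.filter fun z => PS c k T1 z) +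
        wt w (Z.filter fun z => ¬ PS c k T1 z) := by
      rw [wt, wt, wt, sum_filter_add_sum_filter_not]
    have e2 : wt w (Z.filter fun z => PS c k T1 z) ≤ Q.card := by
      calc wt w (Z.filter fun z => PS c k T1 z)
          = ∑ z ∈ Z.filter (fun z => PS c k T1 z), ∑ v ∈ Q,
              (if D z v then 1 / ((inN D v).card : ℝ) else 0) := by
            rw [wt]
            apply sum_congr rfl
            intro z hz
            rw [hw]
            simp only
            rw [if_pos (mem_filter.1 hz).2]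
        _ = ∑ v ∈ Q, ∑ z ∈ Z.filter (fun z => PS c k T1 z),
              (if D z v then 1 / ((inN D v).card : ℝ) else 0) := sum_comm
        _ ≤ ∑ _v ∈ Q, (1 : ℝ) := by
            apply sum_le_sum
            intro v _
            rw [← sum_filter, sum_const, nsmul_eq_mul, mul_one_div, div_le_one (hdpos v)]
            have : ((Z.filter (fun z => PS c k T1 z)).filter fun z => D z v) ⊆ inN D v := by
              intro z hz
              exact mem_inN.2 (mem_filter.1 hz).2
            exact_mod_cast card_le_card this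
        _ = Q.card := by rw [sum_const, nsmul_eq_mul, mul_one]
    have e3 : wt w (Z.filter fun z => ¬ PS c k T1 z) ≤ Q.card := by
      calc wt w (Z.filter fun z => ¬ PS c k T1 z)
          = ∑ _z ∈ Z.filter (fun z => ¬ PS c k T1 z), (1 : ℝ) := by
            rw [wt]
            apply sum_congr rfl
            intro z hz
            rw [hw]
            simp only
            rw [if_neg (mem_filter.1 hz).2]
        _ = ((Z.filter (fun z => ¬ PS c k T1 z)).card : ℝ) := by
            rw [sum_const, nsmul_eq_mul, mul_one]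
        _ ≤ Q.card := by
            have : Z.filter (fun z => ¬ PS c k T1 z) ⊆ Q := by
              intro z hz
              rw [mem_filter] at hz
              exact mem_filter.2 ⟨(mem_filter.1 hz.1).1, hz.2⟩
            exact_mod_cast card_le_card this
    linarith
  have hQδ : (Q.card : ℝ) ≤ 3 * δ := by exact_mod_cast hQc
  have hδQ : (δ : ℝ) < 2 * Q.card := by exact_mod_cast hsm
  have hδf' : 12 * (k : ℝ) + 100 * ((k * j : ℕ) : ℝ) + 1 ≤ δ := by exact_mod_cast hδf
  have hk0 : (0 : ℝ) ≤ k := Nat.cast_nonneg _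
  have hkj0 : (0 : ℝ) ≤ ((k * j : ℕ) : ℝ) := Nat.cast_nonneg _
  obtain ⟨T2, hT2, hT2c, hT2u⟩ := wrounds D hw0 (ε := 1 / 24) (by norm_num) (by norm_num)
    (Q := Q) (Z := Z) (fun z hz => by
      rw [hZ, mem_filter, hW, mem_filter] at hz
      have h1 := hδu z hz.1.2.1 hz.1.2.2.1
      have h2 : (δ : ℝ) ≤ 4 * (inN D z ∩ Q).card := by exact_mod_cast h1.trans hz.2
      linarith) j k (by linarith)
  have hUδ : wt w (Z.filter fun z => (inN D z ∩ T2).card < k) ≤ δ / 8 := by
    calc wt w (Z.filter fun z => (inN D z ∩ T2).card < k)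
        ≤ k * ((1 - 1 / 24) ^ j * wt w Z) := hT2u
      _ = (k * (1 - 1 / 24) ^ j) * wt w Z := by ring
      _ ≤ 1 / 48 * (2 * Q.card) :=
          mul_le_mul hj hWZ (wt_nonneg hw0 _) (by norm_num)
      _ ≤ δ / 8 := by linarith
  refine ⟨T1 ∪ T2, ?_, ?_, fun X hne hXF hXT hX => ?_⟩
  · rw [disjoint_union_left]
    refine ⟨hT1F, ?_⟩
    rw [disjoint_left]
    intro x hx
    exact (mem_filter.1 (hQW (hT2 hx))).2.1
  · refine (card_union_le _ _).trans ?_
    omega
  by_contra hcon
  push Not at hcon
  rw [disjoint_union_right] at hXT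
  have hXW : X ⊆ W := by
    intro v hv
    refine mem_filter.2 ⟨mem_univ _, fun h => (disjoint_left.1 hXF) hv h,
        fun h => (disjoint_left.1 hXT.1) hv h, lt_of_le_of_lt (card_le_card ?_) (hX v hv)⟩
    exact inter_subset_inter_left subset_union_left
  obtain ⟨hb1, hb2⟩ := bad_set hc hT1c hne (fun v hv => hδu v
    (fun h => (disjoint_left.1 hXF) hv h) (fun h => (disjoint_left.1 hXT.1) hv h)) hcon
  set XQ := X.filter (fun v => ¬ PS c k T1 v) with hXQ
  have hXQQ : XQ ⊆ Q := by
    intro v hv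
    rw [hXQ, mem_filter] at hv
    exact mem_filter.2 ⟨hXW hv.1, hv.2⟩
  set U := Z.filter (fun z => (inN D z ∩ T2).card < k) with hU
  have hXU : ∀ v ∈ X, (inN D v).card ≤ 4 * (inN D v ∩ Q).card → v ∈ U := by
    intro v hv h
    refine mem_filter.2 ⟨mem_filter.2 ⟨hXW hv, h⟩, lt_of_le_of_lt (card_le_card ?_) (hX v hv)⟩
    exact inter_subset_inter_left subset_union_right
  have hPU : ∀ v ∈ X, PS c k T1 v → v ∈ U := by
    intro v hv hp
    apply hXU v hv
    have h1 := card_le_card ((hb2 v hv hp).trans hXQQ)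
    have h2 : (inN D v ∩ X).card ≤ (inN D v ∩ Q).card := by
      apply card_le_card
      intro u hu
      exact mem_inter.2 ⟨(mem_inter.1 hu).1, hXQQ (hb2 v hv hp hu)⟩
    have h3 := hcon v hv
    have h5 := card_inter_add_card_sdiff (inN D v) X
    omega
  -- the main count
  have hcount : ∀ v ∈ XQ, (1 : ℝ) ≤ 4 * ((if v ∈ U then 1 else 0) +
      ∑ u ∈ U.filter (fun u => PS c k T1 u),
        (if D u v then 1 / ((inN D v).card : ℝ) else 0)) := by
    intro v hv
    have hvX : v ∈ X := (mem_filter.1 hv).1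
    have hs0 : (0 : ℝ) ≤ ∑ u ∈ U.filter (fun u => PS c k T1 u),
        (if D u v then 1 / ((inN D v).card : ℝ) else 0) := sum_nonneg (fun u _ => hterm u v)
    by_cases h : (inN D v).card ≤ 4 * (inN D v ∩ Q).card
    · rw [if_pos (hXU v hvX h)]
      linarith
    · rw [not_le] at h
      have h1 : (inN D v ∩ X).card ≤ (inN D v ∩ Q).card +
          ((U.filter (fun u => PS c k T1 u)).filter fun u => D u v).card := by
        refine le_trans (card_le_card ?_) (card_union_le _ _)
        intro u hu
        rw [mem_inter, mem_inN] at hu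
        rw [mem_union]
        by_cases hp : PS c k T1 u
        · right
          exact mem_filter.2 ⟨mem_filter.2 ⟨hPU u hu.2 hp, hp⟩, hu.1⟩
        · left
          exact mem_inter.2 ⟨mem_inN.2 hu.1, hXQQ (mem_filter.2 ⟨hu.2, hp⟩)⟩
      have h3 := hcon v hvX
      have h5 := card_inter_add_card_sdiff (inN D v) X
      have h6 : (inN D v).card ≤ 4 *
          ((U.filter (fun u => PS c k T1 u)).filter fun u => D u v).card := by omega
      have h7 : ((inN D v).card : ℝ) ≤ 4 *
          ((U.filter (fun u => PS c k T1 u)).filter fun u => D u v).card := by exact_mod_cast h6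
      rw [← sum_filter, sum_const, nsmul_eq_mul, mul_one_div]
      have h8 : (1 : ℝ) ≤ 4 *
          (((U.filter (fun u => PS c k T1 u)).filter fun u => D u v).card /
            ((inN D v).card : ℝ)) := by
        rw [← mul_div_assoc, le_div_iff₀ (hdpos v), one_mul]
        exact h7
      have h9 : (0 : ℝ) ≤ if v ∈ U then 1 else 0 := by split_ifs <;> norm_num
      linarith
  have hfin : (XQ.card : ℝ) ≤ 4 * wt w U := by
    calc (XQ.card : ℝ) = ∑ _v ∈ XQ, (1 : ℝ) := by rw [sum_const, nsmul_eq_mul, mul_one]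
      _ ≤ ∑ v ∈ XQ, 4 * ((if v ∈ U then 1 else 0) +
          ∑ u ∈ U.filter (fun u => PS c k T1 u),
            (if D u v then 1 / ((inN D v).card : ℝ) else 0)) := sum_le_sum hcount
      _ = 4 * (∑ v ∈ XQ, (if v ∈ U then (1 : ℝ) else 0) + ∑ v ∈ XQ,
          ∑ u ∈ U.filter (fun u => PS c k T1 u),
            (if D u v then 1 / ((inN D v).card : ℝ) else 0)) := by
          rw [← mul_sum, sum_add_distrib]
      _ ≤ 4 * (wt w (U.filter fun u => ¬ PS c k T1 u) +
            wt w (U.filter fun u => PS c k T1 u)) := by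
          refine mul_le_mul_of_nonneg_left (add_le_add ?_ ?_) (by norm_num)
          · rw [← sum_filter]
            calc ∑ v ∈ XQ.filter (fun v => v ∈ U), (1 : ℝ)
                ≤ ∑ v ∈ U.filter (fun u => ¬ PS c k T1 u), (1 : ℝ) := by
                  apply sum_le_sum_of_subset_of_nonneg
                  · intro v hv
                    rw [mem_filter] at hv
                    exact mem_filter.2 ⟨hv.2, (mem_filter.1 hv.1).2⟩
                  · intro _ _ _
                    exact zero_le_one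
              _ = wt w (U.filter fun u => ¬ PS c k T1 u) := by
                  rw [wt]
                  apply sum_congr rfl
                  intro u hu
                  rw [hw]
                  simp only
                  rw [if_neg (mem_filter.1 hu).2]
          · rw [sum_comm]
            apply sum_le_sum
            intro u hu
            rw [hw]
            simp only
            rw [if_pos (mem_filter.1 hu).2]
            exact sum_le_sum_of_subset_of_nonneg hXQQ (fun v _ _ => hterm u v)
      _ = 4 * wt w U := by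
          rw [wt, wt, wt, add_comm, sum_filter_add_sum_filter_not]
  have hb1' : (δ : ℝ) < 2 * XQ.card := by exact_mod_cast hb1
  linarith

/-- The Jackson-Thomassen property for semicomplete multipartite digraphs. -/
theorem jt_multi (k : ℕ) (hk : 1 ≤ k) : ∃ f : ℕ, ∀ (V : Type u) [Fintype V]
    (D : V → V → Prop), KStrong f D →
    (∃ c : V → ℕ, ∀ u v, (D u v ∨ D v u) ↔ c u ≠ c v) →
    ∃ H, SpanningOriented D H ∧ KStrong k H := by
  obtain ⟨t, f0, ht⟩ := dp_multi.{u} k hk
  obtain ⟨C, f, hf⟩ := core.{u} k t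
  refine ⟨max f (f0 + 2 * C), fun V _ D hK hD => ?_⟩
  obtain ⟨c, hc⟩ := hD
  have hl : Loopless D := fun v h => (hc v v).1 (Or.inl h) rfl
  have hK2 := hK.mono (le_max_right f (f0 + 2 * C))
  have hdeg := le_inN_of_rob hl (rob_of_kstrong hK2) hK2.1
  have hdeg' := le_inN_of_rob (D := rev D) (fun v => hl v) (rob_of_kstrong (kstrong_rev hK2)) hK2.1
  refine hf V D hl (hK.mono (le_max_left _ _))
    ((ht V D c hc (fun v => ?_) ∅ (Nat.zero_le _)).dpc (fun v => ?_))
    (fun F hF => (ht V (rev D) c (fun u v => ?_) (fun v => ?_) F hF).dpc (fun v => ?_))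
  · have := hdeg v
    omega
  · have := hdeg v
    omega
  · rw [← hc u v]
    exact or_comm
  · have := hdeg' v
    omega
  · have := hdeg' v
    omega

end Pool.Agent.JT78
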