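import Pool.Agent.JT78.Core

/-!
# Weighted greedy domination
-/

namespace Pool.Agent.JT78

open Finset Relation

open scoped Classical

universe u

section

variable {V : Type u} [Fintype V]

/-- total weight -/
noncomputable def wt (w : V → ℝ) (Z : Finset V) : ℝ := ∑ z ∈ Z, w z

omit [Fintype V] in
theorem wt_mono {w : V → ℝ} (hw : ∀ z, 0 ≤ w z) {Z Z' : Finset V} (h : Z ⊆ Z') :
    wt w Z ≤ wt w Z' :=
  sum_le_sum_of_subset_of_nonneg h (fun z _ _ => hw z)

omit [Fintype V] in
theorem wt_nonneg {w : V → ℝ} (hw : ∀ z, 0 ≤ w z) (Z : Finset V) : 0 ≤ wt w Z :=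
  sum_nonneg (fun z _ => hw z)

/-- one step: some vertex of `Q` dominates a fraction of the weight of `Z` -/
theorem wstep (D : V → V → Prop) {w : V → ℝ} (hw : ∀ z, 0 ≤ w z) {ε : ℝ} {Q Z : Finset V}
    (hQ : Q.Nonempty) (hZ : ∀ z ∈ Z, ε * Q.card ≤ (inN D z ∩ Q).card) :
    ∃ q ∈ Q, ε * wt w Z ≤ wt w (Z.filter fun z => D q z) := by
  have hsum : ∑ _q ∈ Q, ε * wt w Z ≤ ∑ q ∈ Q, wt w (Z.filter fun z => D q z) := by
    calc ∑ _q ∈ Q, ε * wt w Z = ∑ z ∈ Z, w z * (ε * Q.card) := by
          rw [sum_const, nsmul_eq_mul, wt, mul_sum, mul_sum]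
          apply sum_congr rfl
          intro z _
          ring
      _ ≤ ∑ z ∈ Z, w z * (inN D z ∩ Q).card :=
          sum_le_sum (fun z hz => mul_le_mul_of_nonneg_left (hZ z hz) (hw z))
      _ = ∑ z ∈ Z, ∑ q ∈ Q, if D q z then w z else 0 := by
          apply sum_congr rfl
          intro z _
          rw [← sum_filter, sum_const, nsmul_eq_mul, mul_comm]
          congr 3
          ext q
          rw [mem_inter, mem_inN, mem_filter]
          tauto
      _ = ∑ q ∈ Q, ∑ z ∈ Z, if D q z then w z else 0 := sum_comm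
      _ = ∑ q ∈ Q, wt w (Z.filter fun z => D q z) := by
          apply sum_congr rfl
          intro q _
          rw [wt, sum_filter]
  exact exists_le_of_sum_le hQ hsum

/-- greedy domination of all but a small fraction of the weight -/
theorem wgreedy (D : V → V → Prop) {w : V → ℝ} (hw : ∀ z, 0 ≤ w z) {ε : ℝ} (hε : ε ≤ 1)
    {Q Z : Finset V}
    (hQ : Q.Nonempty) (hZ : ∀ z ∈ Z, ε * Q.card ≤ (inN D z ∩ Q).card) (j : ℕ) :
    ∃ A ⊆ Q, A.card ≤ j ∧ wt w (Z.filter fun z => ∀ x ∈ A, ¬ D x z) ≤ (1 - ε) ^ j * wt w Z := by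
  induction j with
  | zero =>
    refine ⟨∅, empty_subset _, le_rfl, ?_⟩
    rw [pow_zero, one_mul]
    exact wt_mono hw (filter_subset _ _)
  | succ j ih =>
    obtain ⟨A, hA, hAc, hAu⟩ := ih
    obtain ⟨q, hq, hqc⟩ := wstep D hw (ε := ε) (Z := Z.filter fun z => ∀ x ∈ A, ¬ D x z) hQ
      (fun z hz => hZ z (mem_filter.1 hz).1)
    refine ⟨insert q A, insert_subset hq hA, (card_insert_le _ _).trans (Nat.succ_le_succ hAc), ?_⟩
    have h1 : wt w (Z.filter fun z => ∀ x ∈ insert q A, ¬ D x z) +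
        wt w ((Z.filter fun z => ∀ x ∈ A, ¬ D x z).filter fun z => D q z) ≤
        wt w (Z.filter fun z => ∀ x ∈ A, ¬ D x z) := by
      rw [wt, wt, ← sum_union]
      · apply wt_mono hw
        intro z hz
        rw [mem_union, mem_filter, mem_filter, mem_filter] at hz
        rw [mem_filter]
        rcases hz with h | h
        · exact ⟨h.1, fun x hx => h.2 x (mem_insert_of_mem hx)⟩
        · exact h.1
      · rw [disjoint_left]
        intro z hz hz'
        exact (mem_filter.1 hz).2 q (mem_insert_self _ _) (mem_filter.1 hz').2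
    calc wt w (Z.filter fun z => ∀ x ∈ insert q A, ¬ D x z)
        ≤ (1 - ε) * wt w (Z.filter fun z => ∀ x ∈ A, ¬ D x z) := by linarith
      _ ≤ (1 - ε) * ((1 - ε) ^ j * wt w Z) :=
          mul_le_mul_of_nonneg_left hAu (by linarith)
      _ = (1 - ε) ^ (j + 1) * wt w Z := by ring

/-- `k`-fold domination -/
theorem wrounds (D : V → V → Prop) {w : V → ℝ} (hw : ∀ z, 0 ≤ w z) {ε : ℝ} (hε0 : 0 < ε)
    (hε : ε ≤ 1) {Q Z : Finset V}
    (hZ : ∀ z ∈ Z, 2 * ε * Q.card ≤ (inN D z ∩ Q).card) (j : ℕ) (i : ℕ)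
    (hQ : (i * j : ℕ) < ε * Q.card) :
    ∃ T ⊆ Q, T.card ≤ i * j ∧
      wt w (Z.filter fun z => (inN D z ∩ T).card < i) ≤ i * ((1 - ε) ^ j * wt w Z) := by
  induction i with
  | zero =>
    refine ⟨∅, empty_subset _, Nat.zero_le _, ?_⟩
    have : (Z.filter fun z => (inN D z ∩ ∅).card < 0) = ∅ := by
      rw [filter_eq_empty_iff]
      intro z _ h
      exact absurd h (Nat.not_lt_zero _)
    rw [this, wt, sum_empty, Nat.cast_zero, zero_mul]
  | succ i ih =>
    have hij : ((i * j : ℕ) : ℝ) ≤ (((i + 1) * j : ℕ) : ℝ) := by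
      exact_mod_cast Nat.mul_le_mul (Nat.le_succ i) le_rfl
    obtain ⟨T, hT, hTc, hTu⟩ := ih (lt_of_le_of_lt hij hQ)
    have hTc' : (T.card : ℝ) < ε * Q.card := by
      refine lt_of_le_of_lt ?_ (lt_of_le_of_lt hij hQ)
      exact_mod_cast hTc
    have hQ' : (Q \ T).Nonempty := by
      rw [← card_pos, card_sdiff_of_subset hT]
      have h1 : (T.card : ℝ) < Q.card := by
        refine lt_of_lt_of_le hTc' ?_
        have : (0 : ℝ) ≤ Q.card := Nat.cast_nonneg _
        nlinarith
      have h2 : T.card < Q.card := by exact_mod_cast h1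
      omega
    obtain ⟨A, hA, hAc, hAu⟩ := wgreedy D hw hε hQ' (Z := Z) (fun z hz => by
      have h1 : (inN D z ∩ Q).card ≤ (inN D z ∩ (Q \ T)).card + T.card := by
        refine le_trans (card_le_card ?_) (card_union_le _ _)
        intro q hq
        rw [mem_inter] at hq
        rw [mem_union, mem_inter, mem_sdiff]
        tauto
      have h2 : ((inN D z ∩ Q).card : ℝ) ≤ (inN D z ∩ (Q \ T)).card + T.card := by
        exact_mod_cast h1
      have h3 := hZ z hz
      have h4 : ((Q \ T).card : ℝ) ≤ Q.card := by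
        exact_mod_cast card_le_card sdiff_subset
      have h5 := mul_le_mul_of_nonneg_left h4 hε0.le
      linarith) j
    refine ⟨A ∪ T, union_subset (hA.trans sdiff_subset) hT, ?_, ?_⟩
    · refine (card_union_le _ _).trans ?_
      rw [add_mul, one_mul]
      omega
    · have hAT : Disjoint A T := by
        rw [disjoint_left]
        intro x hx hx'
        exact (mem_sdiff.1 (hA hx)).2 hx'
      have hsub : (Z.filter fun z => (inN D z ∩ (A ∪ T)).card < i + 1) ⊆
          (Z.filter fun z => ∀ x ∈ A, ¬ D x z) ∪ (Z.filter fun z => (inN D z ∩ T).card < i) := by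
        intro z hz
        rw [mem_filter] at hz
        rw [mem_union, mem_filter, mem_filter]
        by_contra hcon
        push Not at hcon
        obtain ⟨x, hx, hxz⟩ := hcon.1 hz.1
        have h2 := hcon.2 hz.1
        have h3 : insert x (inN D z ∩ T) ⊆ inN D z ∩ (A ∪ T) := by
          intro y hy
          rcases mem_insert.1 hy with h4 | h4
          · rw [h4]
            exact mem_inter.2 ⟨mem_inN.2 hxz, mem_union_left _ hx⟩
          · rw [mem_inter] at h4
            exact mem_inter.2 ⟨h4.1, mem_union_right _ h4.2⟩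
        have h5 := card_le_card h3
        rw [card_insert_of_notMem (fun h => (disjoint_left.1 hAT) hx (mem_inter.1 h).2)] at h5
        omega
      have h1 : wt w (Z.filter fun z => (inN D z ∩ (A ∪ T)).card < i + 1) ≤
          wt w (Z.filter fun z => ∀ x ∈ A, ¬ D x z) +
          wt w (Z.filter fun z => (inN D z ∩ T).card < i) := by
        refine (wt_mono hw hsub).trans ?_
        have := sum_union_inter (s₁ := Z.filter fun z => ∀ x ∈ A, ¬ D x z)
          (s₂ := Z.filter fun z => (inN D z ∩ T).card < i) (f := w)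
        have h2 := wt_nonneg hw ((Z.filter fun z => ∀ x ∈ A, ¬ D x z) ∩
          (Z.filter fun z => (inN D z ∩ T).card < i))
        unfold wt at h2 ⊢
        linarith
      push_cast
      linarith

end

/-- the number of greedy steps -/
theorem exists_steps (k : ℕ) {ε η : ℝ} (hε : 0 < ε) (hε1 : ε ≤ 1) (hη : 0 < η) :
    ∃ j : ℕ, k * (1 - ε) ^ j ≤ η := by
  have hk : (0 : ℝ) < k + 1 := by positivity
  obtain ⟨j, hj⟩ := exists_pow_lt_of_lt_one (show 0 < η / (k + 1) by positivity)
    (show 1 - ε < 1 by linarith)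
  refine ⟨j, ?_⟩
  have h1 : (0 : ℝ) ≤ (1 - ε) ^ j := pow_nonneg (by linarith) j
  rw [lt_div_iff₀ hk] at hj
  nlinarith

end Pool.Agent.JT78
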